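import Pool.Agent.Q186.PF.Sch
import Pool.Agent.Q314.BE.TaskPrefix
import Pool.Agent.Q314.BE.TaskExp

set_option autoImplicit false

/-!
Assembly (helper186).
-/

noncomputable section

namespace Pool.Agent.Q186.PF

open MeasureTheory Filter Topology Set
open Pool.Agent.Q314.BE (act flat num orb taskPrefix taskExp act_append)

variable {β : ℝ} {m : ℕ} {P p : ℕ → ℝ} {R C n t : ℕ → ℕ} {u : ℕ → Bool → ℝ → List ℕ}
  {ψ : ℕ → ℝ → List ℕ} {y : ℝ} {j0 : ℕ}

/-- option word of stage `j` -/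
def uw (β : ℝ) (u : ℕ → Bool → ℝ → List ℕ) (ψ : ℕ → ℝ → List ℕ) (y : ℝ) (ω : ℕ → Bool)
    (j : ℕ) : List ℕ := u j (ω j) (orb (gg β u ψ) ω j y)

/-- long word of stage `j` -/
def pw (β : ℝ) (u : ℕ → Bool → ℝ → List ℕ) (ψ : ℕ → ℝ → List ℕ) (y : ℝ) (ω : ℕ → Bool)
    (j : ℕ) : List ℕ := ψ j (act β (uw β u ψ y ω j) (orb (gg β u ψ) ω j y))

def Pf (β : ℝ) (u : ℕ → Bool → ℝ → List ℕ) (ψ : ℕ → ℝ → List ℕ) (y : ℝ) (ω : ℕ → Bool) :
    ℕ → List ℕ
  | 0 => []
  | j + 1 => Pf β u ψ y ω j ++ uw β u ψ y ω j ++ pw β u ψ y ω j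

def LL (β : ℝ) (u : ℕ → Bool → ℝ → List ℕ) (ψ : ℕ → ℝ → List ℕ) (y : ℝ) (ω : ℕ → Bool) (j0 : ℕ) :
    ℕ → List ℕ
  | 0 => Pf β u ψ y ω (j0 + 1)
  | i + 1 => uw β u ψ y ω (j0 + i + 1) ++ pw β u ψ y ω (j0 + i + 1)

theorem Pf_act (ω : ℕ → Bool) (j : ℕ) : act β (Pf β u ψ y ω j) y = orb (gg β u ψ) ω j y := by
  induction j with
  | zero => rfl
  | succ j ih =>
    show act β (Pf β u ψ y ω j ++ uw β u ψ y ω j ++ pw β u ψ y ω j) y = _
    rw [act_append, act_append, ih]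
    rfl

theorem orb_mem (hs : Sched β m R C n t u ψ) (hy : y ∈ Iv β m) (ω : ℕ → Bool) (j : ℕ) :
    orb (gg β u ψ) ω j y ∈ Iv β m := by
  induction j with
  | zero => exact hy
  | succ j ih => exact hs.ψ2 j _ (hs.u2 j _ _ ih)

theorem Pf_dig (hs : Sched β m R C n t u ψ) (ω : ℕ → Bool) (j : ℕ) :
    ∀ e ∈ Pf β u ψ y ω j, e ≤ m := by
  induction j with
  | zero => intro e he; simp [Pf] at he
  | succ j ih =>
    intro e he
    rcases List.mem_append.1 he with he | he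
    · rcases List.mem_append.1 he with he | he
      · exact ih e he
      · exact (hs.u1 j _ _).2 e he
    · exact (hs.ψ1 j _).2 e he

theorem Pf_len (hs : Sched β m R C n t u ψ) (ω : ℕ → Bool) (j : ℕ) :
    (Pf β u ψ y ω j).length ≤ t j := by
  induction j with
  | zero => simp [Pf]
  | succ j ih =>
    show (Pf β u ψ y ω j ++ uw β u ψ y ω j ++ pw β u ψ y ω j).length ≤ _
    rw [List.length_append, List.length_append, hs.tS]
    have h1 : (uw β u ψ y ω j).length ≤ R j + 1 := (hs.u1 j _ _).1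
    have h2 : (pw β u ψ y ω j).length ≤ n j := (hs.ψ1 j _).1
    omega

/-- all the stages from `j0` on are good -/
def GP (β : ℝ) (m : ℕ) (P p : ℕ → ℝ) (R C n t : ℕ → ℕ) (u : ℕ → Bool → ℝ → List ℕ)
    (ψ : ℕ → ℝ → List ℕ) (y : ℝ) (j0 : ℕ) : Prop :=
  ∀ j ≥ j0, ∀ ω, OKs β m P p R C n t u ψ j (orb (gg β u ψ) ω j y)

theorem uw_ne (hg : GP β m P p R C n t u ψ y j0) (ω : ℕ → Bool) {j : ℕ} (hj : j0 ≤ j) :
    uw β u ψ y ω j ≠ [] := by
  obtain ⟨v, hv, _⟩ := hg j hj ω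
  unfold uw
  rw [hv]
  simp

theorem pw_gd (hg : GP β m P p R C n t u ψ y j0) (ω : ℕ → Bool) {j : ℕ} (hj : j0 ≤ j) :
    Gd m P p (1 / ((j : ℝ) + 1)) (C j) ((j + 1) * (t j + R j + 1)) (n j) (pw β u ψ y ω j) := by
  obtain ⟨v, hv, h⟩ := hg j hj ω
  exact h (ω j)

theorem LL_ne (hg : GP β m P p R C n t u ψ y j0) (ω : ℕ → Bool) (i : ℕ) :
    LL β u ψ y ω j0 i ≠ [] := by
  cases i with
  | zero =>
    show Pf β u ψ y ω j0 ++ uw β u ψ y ω j0 ++ pw β u ψ y ω j0 ≠ []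
    have := uw_ne hg ω (le_refl j0)
    simp [this]
  | succ i =>
    show uw β u ψ y ω (j0 + i + 1) ++ pw β u ψ y ω (j0 + i + 1) ≠ []
    have := uw_ne hg ω (j := j0 + i + 1) (by omega)
    simp [this]

theorem LL_flat (ω : ℕ → Bool) (K : ℕ) :
    ((List.range (K + 1)).map (LL β u ψ y ω j0)).flatten = Pf β u ψ y ω (j0 + K + 1) := by
  induction K with
  | zero => simp [LL]
  | succ K ih =>
    rw [List.range_succ, List.map_append, List.flatten_append, ih, List.map_singleton,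
      List.flatten_singleton]
    show Pf β u ψ y ω (j0 + K + 1) ++ (uw β u ψ y ω (j0 + K + 1) ++ pw β u ψ y ω (j0 + K + 1)) =
      Pf β u ψ y ω (j0 + K + 1) ++ uw β u ψ y ω (j0 + K + 1) ++ pw β u ψ y ω (j0 + K + 1)
    rw [List.append_assoc]

/-- the expansion -/
def EE (β : ℝ) (u : ℕ → Bool → ℝ → List ℕ) (ψ : ℕ → ℝ → List ℕ) (y : ℝ) (j0 : ℕ) (ω : ℕ → Bool) :
    ℕ → ℕ := flat 0 (LL β u ψ y ω j0)

theorem EE_pre (hg : GP β m P p R C n t u ψ y j0) (ω : ℕ → Bool) {j : ℕ} (hj : j0 ≤ j) :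
    (List.range (Pf β u ψ y ω (j + 1)).length).map (EE β u ψ y j0 ω) = Pf β u ψ y ω (j + 1) := by
  obtain ⟨K, rfl⟩ := Nat.exists_eq_add_of_le hj
  have h1 := taskPrefix ℕ 0 (LL β u ψ y ω j0) (LL_ne hg ω) (K + 1)
  rw [LL_flat] at h1
  exact h1

theorem EE_exp (h : Par β m) (hs : Sched β m R C n t u ψ) (hy : y ∈ Iv β m)
    (hg : GP β m P p R C n t u ψ y j0) (ω : ℕ → Bool) : IsExp β m y (EE β u ψ y j0 ω) := by
  refine taskExp taskPrefix β ((m : ℝ) / (β - 1)) y m (LL β u ψ y ω j0) h.1 (LL_ne hg ω) ?_ ?_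
  · intro i
    cases i with
    | zero => exact Pf_dig hs ω (j0 + 1)
    | succ i =>
      intro e he
      rcases List.mem_append.1 he with he | he
      · exact (hs.u1 _ _ _).2 e he
      · exact (hs.ψ1 _ _).2 e he
  · intro K0
    refine ⟨K0 + 1, by omega, ?_⟩
    rw [LL_flat, Pf_act]
    have h1 := orb_mem hs hy ω (j0 + K0 + 1)
    rw [abs_of_nonneg h1.1]
    exact h1.2

/-- start of the long word of stage `j` -/
def ss (β : ℝ) (u : ℕ → Bool → ℝ → List ℕ) (ψ : ℕ → ℝ → List ℕ) (y : ℝ) (ω : ℕ → Bool)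
    (j : ℕ) : ℕ := (Pf β u ψ y ω j).length + (uw β u ψ y ω j).length

theorem EE_seg (hg : GP β m P p R C n t u ψ y j0) (ω : ℕ → Bool) {j : ℕ} (hj : j0 ≤ j) {i : ℕ}
    (hi : i ≤ (pw β u ψ y ω j).length) :
    (List.range i).map (fun s => EE β u ψ y j0 ω (ss β u ψ y ω j + s)) =
      (pw β u ψ y ω j).take i := by
  have h1 := EE_pre hg ω hj
  have hlen : (Pf β u ψ y ω (j + 1)).length = ss β u ψ y ω j + (pw β u ψ y ω j).length := by
    show (Pf β u ψ y ω j ++ uw β u ψ y ω j ++ pw β u ψ y ω j).length = _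
    rw [List.length_append, List.length_append]; rfl
  refine List.ext_getElem (by simp [hi]) ?_
  intro s h2 h3
  have h4 : s < i := by simpa using h2
  have h5 : ss β u ψ y ω j + s < (Pf β u ψ y ω (j + 1)).length := by omega
  have h6 : EE β u ψ y j0 ω (ss β u ψ y ω j + s) = (Pf β u ψ y ω (j + 1))[ss β u ψ y ω j + s] := by
    have h7 : ((List.range (Pf β u ψ y ω (j + 1)).length).map (EE β u ψ y j0 ω))[ss β u ψ y ω j + s]'
        (by simpa using h5) = (Pf β u ψ y ω (j + 1))[ss β u ψ y ω j + s] := by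
      congr 1
    rw [← h7, List.getElem_map, List.getElem_range]
  rw [List.getElem_map, List.getElem_range, h6, List.getElem_take]
  have h8 : Pf β u ψ y ω (j + 1) = (Pf β u ψ y ω j ++ uw β u ψ y ω j) ++ pw β u ψ y ω j := rfl
  have h9 : (Pf β u ψ y ω j ++ uw β u ψ y ω j).length = ss β u ψ y ω j := List.length_append
  have h10 : ∀ (A B : List ℕ) (N s : ℕ) (hN : A.length = N) (hb : s < B.length)
      (hab : N + s < (A ++ B).length), (A ++ B)[N + s] = B[s] := by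
    intro A B N s hN hb hab
    subst hN
    rw [List.getElem_append_right (by omega)]
    congr 1
    omega
  exact h10 _ _ _ s h9 (by omega) (by rw [← h8]; exact h5)

theorem EE_num (hg : GP β m P p R C n t u ψ y j0) (ω : ℕ → Bool) {j : ℕ} (hj : j0 ≤ j) {i : ℕ}
    (hi : i ≤ (pw β u ψ y ω j).length) (k : ℕ) :
    num' (EE β u ψ y j0 ω) k (ss β u ψ y ω j) i = ((pw β u ψ y ω j).take i).count k := by
  rw [← EE_seg hg ω hj hi, ← num_list]
  rfl

theorem EE_freq (hD : TaskD) (hs : Sched β m R C n t u ψ) (hb : ∀ k ≤ m, 0 ≤ p k ∧ p k ≤ P k ∧ P k ≤ 1)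
    (hg : GP β m P p R C n t u ψ y j0) (ω : ℕ → Bool) : FB m P p (EE β u ψ y j0 ω) := by
  intro k hk
  obtain ⟨b1, b2, b3⟩ := hb k hk
  have hn : ∀ j ≥ j0, (pw β u ψ y ω j).length = n j := fun j hj => (pw_gd hg ω hj).1
  have hsj : ∀ j, ss β u ψ y ω j ≤ t j + R j + 1 := by
    intro j
    have h1 := Pf_len (y := y) hs ω j
    have h2 : (uw β u ψ y ω j).length ≤ R j + 1 := (hs.u1 j _ _).1
    unfold ss
    omega
  have hss : ∀ j ≥ j0, ss β u ψ y ω (j + 1) = ss β u ψ y ω j + n j + (uw β u ψ y ω (j + 1)).length := by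
    intro j hj
    have h1 := hn j hj
    show (Pf β u ψ y ω j ++ uw β u ψ y ω j ++ pw β u ψ y ω j).length + _ = _
    rw [List.length_append, List.length_append, h1]
    rfl
  refine hD (EE β u ψ y j0 ω) k (P k) (p k) (ss β u ψ y ω) n C j0 b1 b2 b3 ?_ ?_ ?_ ?_ ?_ ?_
  · have := List.length_pos_of_ne_nil (uw_ne hg ω (le_refl j0))
    unfold ss; omega
  · intro j hj
    rw [hss j hj]; omega
  · intro j hj
    have h1 : (uw β u ψ y ω (j + 1)).length ≤ R (j + 1) + 1 := (hs.u1 (j + 1) _ _).1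
    refine le_trans (Nat.mul_le_mul_left _ ?_) (hs.big j)
    rw [hss j hj]; omega
  · intro j hj i hi1 hi2
    rw [EE_num hg ω hj (by rw [hn j hj]; exact hi2)]
    exact ((pw_gd hg ω hj).2.2 k hk).1 i hi1 hi2
  · intro j hj
    obtain ⟨i, hi1, hi2, hi3⟩ := ((pw_gd hg ω hj).2.2 k hk).2.1
    refine ⟨i, hi1, (Nat.mul_le_mul_left _ (hsj j)).trans hi2, ?_⟩
    rw [EE_num hg ω hj (by rw [hn j hj]; exact hi1)]
    exact hi3
  · intro j hj
    obtain ⟨i, hi1, hi2, hi3⟩ := ((pw_gd hg ω hj).2.2 k hk).2.2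
    refine ⟨i, hi1, (Nat.mul_le_mul_left _ (hsj j)).trans hi2, ?_⟩
    rw [EE_num hg ω hj (by rw [hn j hj]; exact hi1)]
    exact hi3

/-- the coins: `false` before `j0` -/
def cn (j0 : ℕ) (c : ℕ → Bool) (j : ℕ) : Bool := if j < j0 then false else c (j - j0)

theorem orb_congr {g : ℕ → Bool → ℝ → ℝ} {ω ω' : ℕ → Bool} {j : ℕ} (h : ∀ i < j, ω i = ω' i) :
    orb g ω j y = orb g ω' j y := by
  induction j with
  | zero => rfl
  | succ j ih =>
    show g j (ω j) (orb g ω j y) = g j (ω' j) (orb g ω' j y)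
    rw [ih fun i hi => h i (by omega), h j (by omega)]

theorem Pf_congr {ω ω' : ℕ → Bool} {j : ℕ} (h : ∀ i < j, ω i = ω' i) :
    Pf β u ψ y ω j = Pf β u ψ y ω' j := by
  induction j with
  | zero => rfl
  | succ j ih =>
    have h1 : orb (gg β u ψ) ω j y = orb (gg β u ψ) ω' j y := orb_congr fun i hi => h i (by omega)
    have h2 : uw β u ψ y ω j = uw β u ψ y ω' j := by
      unfold uw; rw [h1, h j (by omega)]
    have h3 : pw β u ψ y ω j = pw β u ψ y ω' j := by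
      unfold pw; rw [h1, h2]
    show Pf β u ψ y ω j ++ uw β u ψ y ω j ++ pw β u ψ y ω j =
      Pf β u ψ y ω' j ++ uw β u ψ y ω' j ++ pw β u ψ y ω' j
    rw [ih fun i hi => h i (by omega), h2, h3]

theorem EE_head (hg : GP β m P p R C n t u ψ y j0) (ω : ℕ → Bool) {j : ℕ} (hj : j0 ≤ j) :
    (List.range (ss β u ψ y ω j)).map (EE β u ψ y j0 ω) = Pf β u ψ y ω j ++ uw β u ψ y ω j := by
  have h1 := EE_pre hg ω hj
  have h8 : Pf β u ψ y ω (j + 1) = (Pf β u ψ y ω j ++ uw β u ψ y ω j) ++ pw β u ψ y ω j := rfl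
  have h9 : (Pf β u ψ y ω j ++ uw β u ψ y ω j).length = ss β u ψ y ω j := List.length_append
  have h2 : ((List.range (Pf β u ψ y ω (j + 1)).length).map (EE β u ψ y j0 ω)).take
      (ss β u ψ y ω j) = (List.range (ss β u ψ y ω j)).map (EE β u ψ y j0 ω) := by
    rw [← List.map_take, List.take_range, min_eq_left]
    rw [h8, List.length_append, h9]
    omega
  rw [← h2, h1, h8, ← h9, List.take_left']
  rfl

theorem EE_inj (hg : GP β m P p R C n t u ψ y j0) :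
    Function.Injective (fun c : ℕ → Bool => EE β u ψ y j0 (cn j0 c)) := by
  intro c c' hcc
  by_contra hne
  have hex : ∃ i, c i ≠ c' i := by
    by_contra h
    push Not at h
    exact hne (funext h)
  classical
  set i := Nat.find hex with hi
  have hi1 : c i ≠ c' i := Nat.find_spec hex
  have hi2 : ∀ k < i, c k = c' k := fun k hk => by
    by_contra h
    exact Nat.find_min hex hk h
  have hag : ∀ k < j0 + i, cn j0 c k = cn j0 c' k := by
    intro k hk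
    unfold cn
    split_ifs with h
    · rfl
    · exact hi2 _ (by omega)
  have hj : j0 ≤ j0 + i := Nat.le_add_right _ _
  have ho : orb (gg β u ψ) (cn j0 c) (j0 + i) y = orb (gg β u ψ) (cn j0 c') (j0 + i) y :=
    orb_congr hag
  have hPf : Pf β u ψ y (cn j0 c) (j0 + i) = Pf β u ψ y (cn j0 c') (j0 + i) := Pf_congr hag
  obtain ⟨v, hv, _⟩ := hg (j0 + i) hj (cn j0 c)
  have e1 : uw β u ψ y (cn j0 c) (j0 + i) = v ++ [bit (c i)] := by
    unfold uw
    rw [hv]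
    unfold cn
    simp
  have e2 : uw β u ψ y (cn j0 c') (j0 + i) = v ++ [bit (c' i)] := by
    unfold uw
    rw [← ho, hv]
    unfold cn
    simp
  have h1 := EE_head hg (cn j0 c) hj
  have h2 := EE_head hg (cn j0 c') hj
  have hlen : ss β u ψ y (cn j0 c) (j0 + i) = ss β u ψ y (cn j0 c') (j0 + i) := by
    unfold ss
    rw [hPf, e1, e2]
    simp
  have hcc' : EE β u ψ y j0 (cn j0 c) = EE β u ψ y j0 (cn j0 c') := hcc
  rw [hlen, hcc', h2, hPf, e1, e2] at h1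
  have h3 := List.append_cancel_left (List.append_cancel_left h1)
  have h4 : bit (c' i) = bit (c i) := by simpa using h3
  apply hi1
  unfold bit at h4
  revert h4
  cases c i <;> cases c' i <;> simp

theorem bnd {e : ℕ → ℕ} (he : FB m P p e) : ∀ k ≤ m, 0 ≤ p k ∧ p k ≤ P k ∧ P k ≤ 1 := by
  intro k hk
  obtain ⟨h1, h2⟩ := he k hk
  have b1 : IsBoundedUnder (· ≤ ·) atTop (fun n : ℕ => (num e k n : ℝ) / n) :=
    isBoundedUnder_of ⟨1, fun n => (fr_bdd e k n).2⟩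
  have b2 : IsBoundedUnder (· ≥ ·) atTop (fun n : ℕ => (num e k n : ℝ) / n) :=
    isBoundedUnder_of ⟨0, fun n => (fr_bdd e k n).1⟩
  refine ⟨?_, ?_, ?_⟩
  · rw [← h2]
    exact le_liminf_of_le b1.isCoboundedUnder_ge (Eventually.of_forall fun n => (fr_bdd e k n).1)
  · rw [← h1, ← h2]
    exact liminf_le_limsup b1 b2
  · rw [← h1]
    exact limsup_le_of_le b2.isCoboundedUnder_le (Eventually.of_forall fun n => (fr_bdd e k n).2)

theorem final (hO : TaskOpt) (hP : TaskPsi) (hD : TaskD) (h : Par β m)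
    (HE : ∀ᵐ y ∂(volume.restrict (Iv β m)), ∃ e, IsExp β m y e ∧ FB m P p e) :
    ∀ᵐ y ∂(volume.restrict (Iv β m)),
      Cardinal.mk {e : ℕ → ℕ | IsExp β m y e ∧ FB m P p e} = Cardinal.continuum := by
  obtain ⟨R, C, n, t, u, ψ, hs, hae⟩ := sched h hO hP HE
  rw [mu_ae h] at hae
  filter_upwards [hae, HE, ae_restrict_mem Iv_meas] with y hy1 hy2 hy3
  obtain ⟨j0, hj0⟩ := hy1
  obtain ⟨e0, he0, hf0⟩ := hy2
  have hg : GP β m P p R C n t u ψ y j0 := hj0
  refine le_antisymm ?_ ?_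
  · calc Cardinal.mk {e : ℕ → ℕ | IsExp β m y e ∧ FB m P p e} ≤ Cardinal.mk (ℕ → ℕ) :=
        Cardinal.mk_set_le _
      _ = Cardinal.continuum := by simp
  · have h1 : Cardinal.mk (ℕ → Bool) = Cardinal.continuum := by simp
    rw [← h1]
    refine Cardinal.mk_le_of_injective (f := fun c : ℕ → Bool =>
      (⟨EE β u ψ y j0 (cn j0 c), EE_exp h hs hy3 hg _, EE_freq hD hs (bnd hf0) hg _⟩ :
        {e : ℕ → ℕ | IsExp β m y e ∧ FB m P p e})) ?_
    intro c c' hcc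
    exact EE_inj hg (congrArg Subtype.val hcc)

end Pool.Agent.Q186.PF
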