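import Pool.Agent.Q186.PF.Stmts

set_option autoImplicit false

/-!
Words of an expansion (helper186).
-/

namespace Pool.Agent.Q186.PF

open MeasureTheory Filter Topology Set
open Pool.Agent.Q314.BE (act flat num orb)

/-- `e` is a `β`-expansion of `x` with digits `≤ m` -/
def IsExp (β : ℝ) (m : ℕ) (x : ℝ) (e : ℕ → ℕ) : Prop :=
  (∀ i, e i ≤ m) ∧ HasSum (fun i => (e i : ℝ) / β ^ (i + 1)) x

/-- upper and lower frequencies of the digits `0..m` -/
def FB (m : ℕ) (P p : ℕ → ℝ) (e : ℕ → ℕ) : Prop := ∀ k ≤ m,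
  limsup (fun n : ℕ => (num e k n : ℝ) / n) atTop = P k ∧
  liminf (fun n : ℕ => (num e k n : ℝ) / n) atTop = p k

variable {β : ℝ} {m : ℕ} {P p : ℕ → ℝ}

theorem Iv_pos (h : Par β m) : 1 ≤ m ∧ 1 < (m : ℝ) / (β - 1) := by
  obtain ⟨h1, h2, h3⟩ := h
  have hm : 1 ≤ m := by
    by_contra hm
    have : m = 0 := by omega
    subst this
    norm_num at h2
    linarith
  refine ⟨hm, ?_⟩
  rw [lt_div_iff₀ (by linarith)]
  linarith

theorem exp_mem (hβ : 1 < β) {x : ℝ} {e : ℕ → ℕ} (h : IsExp β m x e) : x ∈ Iv β m := by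
  obtain ⟨h1, h2⟩ := h
  have hβ0 : 0 < β := by linarith
  constructor
  · exact h2.nonneg fun i => by positivity
  · have hg : HasSum (fun i : ℕ => (m : ℝ) / β ^ (i + 1)) ((m : ℝ) / (β - 1)) := by
      have := (hasSum_geometric_of_lt_one (inv_nonneg.2 hβ0.le) (inv_lt_one_of_one_lt₀ hβ)).mul_left
        ((m : ℝ) / β)
      have e1 : (fun i : ℕ => (m : ℝ) / β ^ (i + 1)) = fun i => (m : ℝ) / β * β⁻¹ ^ i := by
        funext i
        rw [pow_succ, inv_pow, div_mul_eq_mul_div, div_eq_mul_inv, div_eq_mul_inv, mul_inv]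
        ring
      have e2 : (m : ℝ) / (β - 1) = (m : ℝ) / β * (1 - β⁻¹)⁻¹ := by
        have h3 : β - 1 ≠ 0 := by linarith
        have h4 : (1 : ℝ) - β⁻¹ = (β - 1) / β := by field_simp
        rw [h4, inv_div]
        field_simp
      rw [e1, e2]
      exact this
    refine hasSum_le (fun i => ?_) h2 hg
    have : (e i : ℝ) ≤ m := by exact_mod_cast h1 i
    gcongr

theorem exp_shift (hβ : 1 < β) {x : ℝ} {e : ℕ → ℕ} (h : IsExp β m x e) :
    IsExp β m (β * x - e 0) (fun i => e (i + 1)) := by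
  obtain ⟨h1, h2⟩ := h
  have hβ0 : 0 < β := by linarith
  refine ⟨fun i => h1 _, ?_⟩
  have h3 := ((hasSum_nat_add_iff' 1).2 h2).mul_left β
  rw [Finset.sum_range_one] at h3
  have h4 : β * (x - (e 0 : ℝ) / β ^ (0 + 1)) = β * x - e 0 := by
    rw [zero_add, pow_one]
    field_simp
  rw [h4] at h3
  have h5 : (fun i : ℕ => β * ((e (i + 1) : ℝ) / β ^ (i + 1 + 1))) =
      fun i => ((e (i + 1) : ℕ) : ℝ) / β ^ (i + 1) := by
    funext i
    rw [pow_succ β (i + 1)]
    field_simp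
  rw [h5] at h3
  exact h3

theorem exp_act (hβ : 1 < β) (n : ℕ) : ∀ {x : ℝ} {e : ℕ → ℕ}, IsExp β m x e →
    IsExp β m (act β ((List.range n).map e) x) (fun i => e (i + n)) := by
  induction n with
  | zero => intro x e h; exact h
  | succ n ih =>
    intro x e h
    have h1 := ih (exp_shift hβ h)
    rw [List.range_succ_eq_map, List.map_cons, List.map_map]
    show IsExp β m (act β ((List.range n).map (e ∘ Nat.succ)) (β * x - e 0)) _
    have h2 : (fun i => e (i + (n + 1))) = fun i => e (i + n + 1) := by funext i; rw [add_assoc]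
    rw [h2]
    exact h1

theorem num_succ (e : ℕ → ℕ) (k n : ℕ) : num e k (n + 1) = num e k n + if e n = k then 1 else 0 := by
  unfold num
  rw [Finset.range_add_one, Finset.filter_insert]
  split_ifs with h
  · rw [Finset.card_insert_of_notMem (by simp)]
  · rfl

theorem num_list (e : ℕ → ℕ) (k n : ℕ) : num e k n = ((List.range n).map e).count k := by
  induction n with
  | zero => simp [num]
  | succ n ih =>
    rw [num_succ, ih, List.range_succ, List.map_append, List.count_append]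
    congr 1
    by_cases h : e n = k
    · simp [h]
    · simp [h]

theorem num_take (e : ℕ → ℕ) (k : ℕ) {i n : ℕ} (h : i ≤ n) :
    (((List.range n).map e).take i).count k = num e k i := by
  rw [num_list, ← List.map_take, List.take_range, min_eq_left h]

theorem num_le (e : ℕ → ℕ) (k n : ℕ) : num e k n ≤ n := by
  unfold num
  exact (Finset.card_filter_le _ _).trans (by simp)

/-- good words -/
def Gd (m : ℕ) (P p : ℕ → ℝ) (δ : ℝ) (C K n : ℕ) (w : List ℕ) : Prop :=
  w.length = n ∧ (∀ e ∈ w, e ≤ m) ∧ ∀ k ≤ m,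
    (∀ i, C ≤ i → i ≤ n → (p k - δ) * i ≤ (w.take i).count k ∧
      ((w.take i).count k : ℝ) ≤ (P k + δ) * i) ∧
    (∃ i ≤ n, K ≤ i ∧ (P k - δ) * i ≤ (w.take i).count k) ∧
    (∃ i ≤ n, K ≤ i ∧ ((w.take i).count k : ℝ) ≤ (p k + δ) * i)

theorem fr_bdd (e : ℕ → ℕ) (k n : ℕ) : 0 ≤ (num e k n : ℝ) / n ∧ (num e k n : ℝ) / n ≤ 1 := by
  constructor
  · positivity
  · rcases Nat.eq_zero_or_pos n with rfl | hn
    · simp
    · rw [div_le_one (by exact_mod_cast hn)]
      exact_mod_cast num_le e k n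

theorem exp_good (h : Par β m) {x : ℝ} {e : ℕ → ℕ} (he : IsExp β m x e) (hf : FB m P p e) {δ : ℝ}
    (hδ : 0 < δ) : ∃ C, ∀ K, ∃ n0, ∀ n ≥ n0, ∃ w, Gd m P p δ C K n w ∧ act β w x ∈ Iv β m := by
  have hbb : ∀ k, IsBoundedUnder (· ≤ ·) atTop (fun n : ℕ => (num e k n : ℝ) / n) := fun k =>
    isBoundedUnder_of ⟨1, fun n => (fr_bdd e k n).2⟩
  have hbb' : ∀ k, IsBoundedUnder (· ≥ ·) atTop (fun n : ℕ => (num e k n : ℝ) / n) := fun k =>
    isBoundedUnder_of ⟨0, fun n => (fr_bdd e k n).1⟩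
  have h1 : ∀ k ≤ m, ∀ᶠ n : ℕ in atTop, (num e k n : ℝ) / n < P k + δ ∧
      p k - δ < (num e k n : ℝ) / n := by
    intro k hk
    have a1 : limsup (fun n : ℕ => (num e k n : ℝ) / n) atTop < P k + δ := by
      rw [(hf k hk).1]; linarith
    have a2 : p k - δ < liminf (fun n : ℕ => (num e k n : ℝ) / n) atTop := by
      rw [(hf k hk).2]; linarith
    exact (eventually_lt_of_limsup_lt a1 (hbb k)).and (eventually_lt_of_lt_liminf a2 (hbb' k))
  have h2 : ∀ᶠ n : ℕ in atTop, ∀ k ≤ m, (num e k n : ℝ) / n < P k + δ ∧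
      p k - δ < (num e k n : ℝ) / n := by
    have h0 : ∀ k ∈ Finset.range (m + 1), ∀ᶠ n : ℕ in atTop, (num e k n : ℝ) / n < P k + δ ∧
        p k - δ < (num e k n : ℝ) / n :=
      fun k hk => h1 k (Nat.lt_succ_iff.1 (Finset.mem_range.1 hk))
    have := (Filter.eventually_all_finset (Finset.range (m + 1))).2 h0
    filter_upwards [this] with n hn k hk
    exact hn k (Finset.mem_range.2 (Nat.lt_succ_of_le hk))
  obtain ⟨C, hC⟩ := eventually_atTop.1 (h2.and (eventually_ge_atTop 1))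
  refine ⟨C, fun K => ?_⟩
  have h3 : ∀ k ≤ m, ∃ i, K ≤ i ∧ 1 ≤ i ∧ P k - δ < (num e k i : ℝ) / i := by
    intro k hk
    have a1 : P k - δ < limsup (fun n : ℕ => (num e k n : ℝ) / n) atTop := by
      rw [(hf k hk).1]; linarith
    have a2 := frequently_lt_of_lt_limsup (f := atTop)
      (hbb' k).isCoboundedUnder_le a1
    obtain ⟨i, hi1, hi2⟩ := (a2.and_eventually ((eventually_ge_atTop K).and
      (eventually_ge_atTop 1))).exists
    exact ⟨i, hi2.1, hi2.2, hi1⟩
  have h4 : ∀ k ≤ m, ∃ i, K ≤ i ∧ 1 ≤ i ∧ (num e k i : ℝ) / i < p k + δ := by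
    intro k hk
    have a1 : liminf (fun n : ℕ => (num e k n : ℝ) / n) atTop < p k + δ := by
      rw [(hf k hk).2]; linarith
    have a2 := frequently_lt_of_liminf_lt (f := atTop)
      (hbb k).isCoboundedUnder_ge a1
    obtain ⟨i, hi1, hi2⟩ := (a2.and_eventually ((eventually_ge_atTop K).and
      (eventually_ge_atTop 1))).exists
    exact ⟨i, hi2.1, hi2.2, hi1⟩
  choose! I1 b1 b2 b3 using h3
  choose! I2 c1 c2 c3 using h4
  refine ⟨(∑ k ∈ Finset.range (m + 1), I1 k) + ∑ k ∈ Finset.range (m + 1), I2 k, fun n hn => ?_⟩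
  have hI1 : ∀ k ≤ m, I1 k ≤ n := by
    intro k hk
    have h0 : I1 k ≤ ∑ k ∈ Finset.range (m + 1), I1 k :=
      Finset.single_le_sum (f := I1) (fun i _ => Nat.zero_le _)
        (Finset.mem_range.2 (Nat.lt_succ_of_le hk))
    exact h0.trans ((Nat.le_add_right _ _).trans hn)
  have hI2 : ∀ k ≤ m, I2 k ≤ n := by
    intro k hk
    have h0 : I2 k ≤ ∑ k ∈ Finset.range (m + 1), I2 k :=
      Finset.single_le_sum (f := I2) (fun i _ => Nat.zero_le _)
        (Finset.mem_range.2 (Nat.lt_succ_of_le hk))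
    exact h0.trans ((Nat.le_add_left _ _).trans hn)
  refine ⟨(List.range n).map e, ⟨by simp, ?_, ?_⟩, exp_mem h.1 (exp_act h.1 n he)⟩
  · intro d hd
    obtain ⟨i, _, rfl⟩ := List.mem_map.1 hd
    exact he.1 i
  · intro k hk
    refine ⟨fun i hi1 hi2 => ?_, ⟨I1 k, hI1 k hk, b1 k hk, ?_⟩, ⟨I2 k, hI2 k hk, c1 k hk, ?_⟩⟩
    · rw [num_take e k hi2]
      obtain ⟨a1, a2⟩ := hC i hi1
      have hi0 : (0 : ℝ) < i := by exact_mod_cast a2
      have a3 := a1 k hk
      rw [div_lt_iff₀ hi0, lt_div_iff₀ hi0] at a3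
      exact ⟨a3.2.le, a3.1.le⟩
    · rw [num_take e k (hI1 k hk)]
      have hi0 : (0 : ℝ) < I1 k := by exact_mod_cast b2 k hk
      have := b3 k hk
      rw [lt_div_iff₀ hi0] at this
      exact this.le
    · rw [num_take e k (hI2 k hk)]
      have hi0 : (0 : ℝ) < I2 k := by exact_mod_cast c2 k hk
      have := c3 k hk
      rw [div_lt_iff₀ hi0] at this
      exact this.le

/-- finitely many words -/
theorem fin_words (m R : ℕ) : {w : List ℕ | w.length ≤ R ∧ ∀ e ∈ w, e ≤ m}.Finite := by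
  have h1 := (List.finite_length_le (Fin (m + 1)) R).image (List.map (fun a : Fin (m + 1) => (a : ℕ)))
  refine h1.subset ?_
  rintro w ⟨h2, h3⟩
  refine ⟨w.map (fun a => Fin.ofNat (m + 1) a), by simpa using h2, ?_⟩
  rw [List.map_map]
  conv_rhs => rw [← List.map_id w]
  refine List.map_congr_left fun a ha => ?_
  simp only [Function.comp, id]
  rw [Fin.val_ofNat]
  exact Nat.mod_eq_of_lt (Nat.lt_succ_of_le (h3 a ha))

/-- choice of a word -/
theorem sel (Ls : List (List ℕ)) (Z : List ℕ → Set ℝ) (hZ : ∀ w, MeasurableSet (Z w)) :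
    ∃ s : ℝ → List ℕ, (∀ w, MeasurableSet (s ⁻¹' {w})) ∧
      (∀ y, s y = [] ∨ (s y ∈ Ls ∧ y ∈ Z (s y))) ∧
      (∀ y, (∃ w ∈ Ls, y ∈ Z w) → s y ∈ Ls ∧ y ∈ Z (s y)) := by
  classical
  induction Ls with
  | nil =>
    refine ⟨fun _ => [], fun w => ?_, fun y => Or.inl rfl, ?_⟩
    · by_cases hw : w = []
      · rw [hw]; convert MeasurableSet.univ; simp
      · convert MeasurableSet.empty
        ext y; simp [Ne.symm hw]
    · rintro y ⟨w, hw, _⟩; simp at hw
  | cons u Ls ih =>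
    obtain ⟨s, s1, s2, s3⟩ := ih
    refine ⟨fun y => if y ∈ Z u then u else s y, fun w => ?_, fun y => ?_, fun y => ?_⟩
    · have : (fun y => if y ∈ Z u then u else s y) ⁻¹' {w} =
          (Z u ∩ {_y | u = w}) ∪ ((Z u)ᶜ ∩ s ⁻¹' {w}) := by
        ext y
        by_cases hy : y ∈ Z u
        · simp [hy]
        · simp [hy]
      rw [this]
      exact ((hZ u).inter (MeasurableSet.const _)).union ((hZ u).compl.inter (s1 w))
    · by_cases hy : y ∈ Z u
      · right; simp [hy]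
      · rcases s2 y with h | h
        · left; simp [hy, h]
        · right; simp only [hy, if_false]; exact ⟨List.mem_cons_of_mem _ h.1, h.2⟩
    · rintro ⟨w, hw, hwy⟩
      by_cases hy : y ∈ Z u
      · simp [hy]
      · simp only [hy, if_false]
        rcases List.mem_cons.1 hw with rfl | hw
        · exact absurd hwy hy
        · obtain ⟨a, b⟩ := s3 y ⟨w, hw, hwy⟩
          exact ⟨List.mem_cons_of_mem _ a, b⟩

end Pool.Agent.Q186.PF
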