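import Pool.Agent.Q186.PF.Stg

set_option autoImplicit false

/-!
The schedule of the construction (helper186).
-/

noncomputable section

namespace Pool.Agent.Q186.PF

open MeasureTheory Filter Topology Set
open Pool.Agent.Q314.BE (act flat num orb taskScale taskBC taskTail act_affine)

variable {β : ℝ} {m : ℕ} {P p : ℕ → ℝ}

structure Sched (β : ℝ) (m : ℕ) (R C n t : ℕ → ℕ) (u : ℕ → Bool → ℝ → List ℕ)
    (ψ : ℕ → ℝ → List ℕ) : Prop where
  t0 : t 0 = 0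
  tS : ∀ j, t (j + 1) = t j + (R j + 1) + n j
  big : ∀ j, (j + 1) * (R (j + 1) + 1 + C (j + 1)) ≤ n j
  u1 : ∀ j b y, (u j b y).length ≤ R j + 1 ∧ ∀ e ∈ u j b y, e ≤ m
  u2 : ∀ j b, ∀ y ∈ Iv β m, act β (u j b y) y ∈ Iv β m
  ψ1 : ∀ j y, (ψ j y).length ≤ n j ∧ ∀ e ∈ ψ j y, e ≤ m
  ψ2 : ∀ j, ∀ y ∈ Iv β m, act β (ψ j y) y ∈ Iv β m

def gg (β : ℝ) (u : ℕ → Bool → ℝ → List ℕ) (ψ : ℕ → ℝ → List ℕ) (j : ℕ) (b : Bool) (y : ℝ) : ℝ :=
  act β (ψ j (act β (u j b y) y)) (act β (u j b y) y)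

def OKs (β : ℝ) (m : ℕ) (P p : ℕ → ℝ) (R C n t : ℕ → ℕ) (u : ℕ → Bool → ℝ → List ℕ)
    (ψ : ℕ → ℝ → List ℕ) (j : ℕ) (z : ℝ) : Prop :=
  ∃ v : List ℕ, (∀ b, u j b z = v ++ [bit b]) ∧
    ∀ b, Gd m P p (1 / ((j : ℝ) + 1)) (C j) ((j + 1) * (t j + R j + 1)) (n j)
      (ψ j (act β (u j b z) z))

def qq (m : ℕ) (Rf : ℕ → ℕ) : ℕ → ℕ
  | 0 => 1
  | j + 1 => qq m Rf j * (5 * D1 m (Rf (2 * (4 ^ j * qq m Rf j))))

def tq (nf : ℕ → ℕ → ℕ) (R : ℕ → ℕ) : ℕ → ℕ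
  | 0 => 0
  | j + 1 => tq nf R j + (R j + 1) + nf j (tq nf R j)

theorem sched (h : Par β m) (hO : TaskOpt) (hP : TaskPsi)
    (HE : ∀ᵐ y ∂(volume.restrict (Iv β m)), ∃ e, IsExp β m y e ∧ FB m P p e) :
    ∃ (R C n t : ℕ → ℕ) (u : ℕ → Bool → ℝ → List ℕ) (ψ : ℕ → ℝ → List ℕ),
      Sched β m R C n t u ψ ∧ ∀ᵐ y ∂(mu β m), ∃ j0, ∀ j ≥ j0, ∀ ω,
        OKs β m P p R C n t u ψ j (orb (gg β u ψ) ω j y) := by
  have hprob := mu_prob h
  choose Rf hRf using ex_R h hO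
  have hδ : ∀ j : ℕ, 0 < 1 / ((j : ℝ) + 1) := fun j => by positivity
  choose Cf hCf using fun j : ℕ => ex_C h HE (hδ j)
  choose nf hnf1 hnf2 using fun j : ℕ => ex_n (P := P) (p := p) h (1 / ((j : ℝ) + 1))
  set q : ℕ → ℕ := qq m Rf with hq
  set X : ℕ → ℕ := fun j => 4 ^ j * q j with hX
  set R : ℕ → ℕ := fun j => Rf (2 * X j) with hR
  set Y : ℕ → ℕ := fun j => 4 * X j * D1 m (R j) with hY
  set C : ℕ → ℕ := fun j => Cf j (2 * Y j) with hC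
  set N : ℕ → ℕ → ℕ := fun j T => nf j (2 * Y j) (C j) ((j + 1) * (T + R j + 1))
    ((j + 1) * (R (j + 1) + 1 + C (j + 1))) with hN
  set t : ℕ → ℕ := tq N R with ht
  set n : ℕ → ℕ := fun j => N j (t j) with hn
  choose uf u1 u2 u3 u4 u5 using fun j : ℕ => theta (β := β) h (R j)
  choose ψ p1 p2 p3 p4 p5 using fun j : ℕ => hP β m h (n j)
    {w | Gd m P p (1 / ((j : ℝ) + 1)) (C j) ((j + 1) * (t j + R j + 1)) (n j) w}
    (fun w hw => ⟨hw.1, hw.2.1⟩)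
  have hψI : ∀ j, ∀ y ∈ Iv β m, act β (ψ j y) y ∈ Iv β m := by
    intro j y hy
    rcases p2 j y with h1 | h1
    · rw [h1]; exact hy
    · exact h1.2
  refine ⟨R, C, n, t, uf, ψ, ⟨rfl, fun j => rfl, fun j => hnf1 j _ _ _ _, u3, u4, ?_, hψI⟩, ?_⟩
  · intro j y
    rcases p2 j y with h1 | h1
    · rw [h1]; simp
    · exact ⟨h1.1.1.le, h1.1.2.1⟩
  set Bad : ℕ → Set ℝ := fun j : ℕ => (OS β m (R j))ᶜ ∪ ⋃ b : Bool, (fun y => act β (uf j b y) y) ⁻¹'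
    (HS β m P p (1 / ((j : ℝ) + 1)) (C j) ((j + 1) * (t j + R j + 1)) (n j))ᶜ with hBad
  have hum : ∀ j b, Measurable (fun y => act β (uf j b y) y) := fun j b => act_meas_of (u1 j b)
  have hgm : ∀ j b, Measurable (gg β uf ψ j b) := fun j b => (p4 j).comp (hum j b)
  have hHm : ∀ j : ℕ, MeasurableSet (HS β m P p (1 / ((j : ℝ) + 1)) (C j)
      ((j + 1) * (t j + R j + 1)) (n j))ᶜ := fun j => (HS_meas _ _ _ _).compl
  have hBm : ∀ j, MeasurableSet (Bad j) := fun j =>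
    (OS_meas _).compl.union (MeasurableSet.iUnion fun b => hum j b (hHm j))
  have hgD : ∀ j b B, MeasurableSet B → mu β m (gg β uf ψ j b ⁻¹' B) ≤
      ((5 * D1 m (R j) : ℕ) : ENNReal) * mu β m B := by
    intro j b B hB
    refine mu_le (hgm j b) (fun y hy => hψI j _ (u4 j b y hy)) (fun B hB => ?_) hB
    calc volume (gg β uf ψ j b ⁻¹' B) ≤ (D1 m (R j) : ENNReal) *
          volume ((fun y => act β (ψ j y) y) ⁻¹' B) := u5 j b _ (p4 j hB)
      _ ≤ (D1 m (R j) : ENNReal) * (5 * volume B) := by gcongr; exact p5 j B hB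
      _ = _ := by push_cast; ring
  have hprod : ∀ k, (∏ i ∈ Finset.range k, (((5 * D1 m (R i) : ℕ)) : ENNReal)) = (q k : ENNReal) := by
    intro k
    induction k with
    | zero => simp [hq, qq]
    | succ k ih =>
      rw [Finset.prod_range_succ, ih, ← Nat.cast_mul]
      rfl
  have hBB : ∀ k, ((4 : ENNReal) ^ k * ∏ i ∈ Finset.range k, (((5 * D1 m (R i) : ℕ)) : ENNReal)) *
      mu β m (Bad k) ≤ 1 := by
    intro k
    rw [hprod]
    have e0 : (4 : ENNReal) ^ k * (q k : ENNReal) = (X k : ENNReal) := by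
      rw [hX]; push_cast; rfl
    rw [e0]
    set H : Set ℝ := HS β m P p (1 / ((k : ℝ) + 1)) (C k) ((k + 1) * (t k + R k + 1)) (n k) with hH
    have a1 : ((2 * X k : ℕ) : ENNReal) * mu β m (OS β m (R k))ᶜ ≤ 1 := hRf _
    have a2 : ((2 * Y k : ℕ) : ENNReal) * mu β m (AS β m P p (1 / ((k : ℝ) + 1)) (C k))ᶜ ≤ 1 := hCf k _
    have a3 : ((2 * Y k : ℕ) : ENNReal) * mu β m (AS β m P p (1 / ((k : ℝ) + 1)) (C k) \ H) ≤ 1 :=
      hnf2 k _ _ _ _
    have a4 : (2 : ENNReal) * ((Y k : ENNReal) * mu β m Hᶜ) ≤ 2 * 1 := by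
      have hsub : Hᶜ ⊆ (AS β m P p (1 / ((k : ℝ) + 1)) (C k))ᶜ ∪
          (AS β m P p (1 / ((k : ℝ) + 1)) (C k) \ H) := by
        intro y hy
        by_cases hyA : y ∈ AS β m P p (1 / ((k : ℝ) + 1)) (C k)
        · exact Or.inr ⟨hyA, hy⟩
        · exact Or.inl hyA
      calc (2 : ENNReal) * ((Y k : ENNReal) * mu β m Hᶜ)
          ≤ 2 * ((Y k : ENNReal) * (mu β m (AS β m P p (1 / ((k : ℝ) + 1)) (C k))ᶜ +
            mu β m (AS β m P p (1 / ((k : ℝ) + 1)) (C k) \ H))) := by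
            gcongr
            exact (measure_mono hsub).trans (measure_union_le _ _)
        _ = ((2 * Y k : ℕ) : ENNReal) * mu β m (AS β m P p (1 / ((k : ℝ) + 1)) (C k))ᶜ +
            ((2 * Y k : ℕ) : ENNReal) * mu β m (AS β m P p (1 / ((k : ℝ) + 1)) (C k) \ H) := by
            push_cast; ring
        _ ≤ 1 + 1 := add_le_add a2 a3
        _ = 2 * 1 := by norm_num
    have a5 : (Y k : ENNReal) * mu β m Hᶜ ≤ 1 :=
      (ENNReal.mul_le_mul_iff_right (by norm_num) (by norm_num)).1 a4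
    have a6 : ∀ b, mu β m ((fun y => act β (uf k b y) y) ⁻¹' Hᶜ) ≤ (D1 m (R k) : ENNReal) * mu β m Hᶜ :=
      fun b => mu_le (hum k b) (u4 k b) (u5 k b) (hHm k)
    have a7 : mu β m (Bad k) ≤ mu β m (OS β m (R k))ᶜ + 2 * ((D1 m (R k) : ENNReal) * mu β m Hᶜ) := by
      refine (measure_union_le _ _).trans ?_
      gcongr
      refine (measure_iUnion_le _).trans ?_
      rw [tsum_fintype]
      refine (Finset.sum_le_sum fun b _ => a6 b).trans ?_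
      simp
    have a8 : (2 : ENNReal) * ((X k : ENNReal) * mu β m (Bad k)) ≤ 2 * 1 := by
      calc (2 : ENNReal) * ((X k : ENNReal) * mu β m (Bad k))
          ≤ 2 * ((X k : ENNReal) * (mu β m (OS β m (R k))ᶜ +
            2 * ((D1 m (R k) : ENNReal) * mu β m Hᶜ))) := by gcongr
        _ = ((2 * X k : ℕ) : ENNReal) * mu β m (OS β m (R k))ᶜ + (Y k : ENNReal) * mu β m Hᶜ := by
            rw [hY]; push_cast; ring
        _ ≤ 1 + 1 := add_le_add a1 a5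
        _ = 2 * 1 := by norm_num
    exact (ENNReal.mul_le_mul_iff_right (by norm_num) (by norm_num)).1 a8
  have hbc := taskBC (mu β m) (gg β uf ψ) (fun j => 5 * D1 m (R j)) Bad hprob hgm hgD hBm hBB
  filter_upwards [hbc] with y hy
  obtain ⟨j0, hj0⟩ := hy
  refine ⟨j0, fun j hj ω => ?_⟩
  have hz := hj0 j hj ω
  set z := orb (gg β uf ψ) ω j y with hzd
  have hz1 : z ∈ OS β m (R j) := by
    by_contra hc
    exact hz (Or.inl hc)
  obtain ⟨v, hv⟩ := u2 j z hz1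
  refine ⟨v, hv, fun b => ?_⟩
  have hz2 : act β (uf j b z) z ∈ HS β m P p (1 / ((j : ℝ) + 1)) (C j)
      ((j + 1) * (t j + R j + 1)) (n j) := by
    by_contra hc
    exact hz (Or.inr (mem_iUnion.2 ⟨b, hc⟩))
  exact (p3 j _ hz2).1

end Pool.Agent.Q186.PF
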