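import Pool.Agent.Q186.PF.Pt
import Pool.Agent.Q314.BE.TaskScale
import Pool.Agent.Q314.BE.TaskBC
import Pool.Agent.Q314.BE.TaskTail

set_option autoImplicit false

/-!
The stages of the construction (helper186).
-/

noncomputable section

namespace Pool.Agent.Q186.PF

open MeasureTheory Filter Topology Set
open Pool.Agent.Q314.BE (act flat num orb taskScale taskBC taskTail act_affine)

variable {β : ℝ} {m : ℕ} {P p : ℕ → ℝ}

theorem act_meas (w : List ℕ) : Measurable (act β w) := by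
  obtain ⟨c, hc⟩ := act_affine β w
  have : act β w = fun x => β ^ w.length * x + c := funext hc
  rw [this]
  exact (measurable_const.mul measurable_id).add measurable_const

theorem act_meas_of {s : ℝ → List ℕ} (hs : ∀ w, MeasurableSet (s ⁻¹' {w})) :
    Measurable (fun y => act β (s y) y) := by
  intro B hB
  have : (fun y => act β (s y) y) ⁻¹' B = ⋃ w, (s ⁻¹' {w} ∩ act β w ⁻¹' B) := by
    ext y
    simp only [mem_preimage, mem_iUnion, mem_inter_iff, mem_singleton_iff]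
    constructor
    · intro h; exact ⟨s y, rfl, h⟩
    · rintro ⟨w, rfl, h⟩; exact h
  rw [this]
  exact MeasurableSet.iUnion fun w => (hs w).inter (act_meas w hB)

theorem vol_act_le (hβ : 1 < β) (w : List ℕ) {B : Set ℝ} (hB : MeasurableSet B) :
    volume (act β w ⁻¹' B) ≤ volume B := by
  have h1 := (taskScale β hβ w B hB).2
  have h2 : act β w ⁻¹' B = {x | act β w x ∈ B} := rfl
  rw [h2, h1]
  have h3 : ENNReal.ofReal ((β ^ w.length)⁻¹) ≤ 1 := by
    rw [← ENNReal.ofReal_one]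
    exact ENNReal.ofReal_le_ofReal (inv_le_one_of_one_le₀ (one_le_pow₀ hβ.le))
  calc _ ≤ 1 * volume B := by gcongr
    _ = _ := one_mul _

/-- normalised Lebesgue measure -/
def mu (β : ℝ) (m : ℕ) : Measure ℝ := (volume (Iv β m))⁻¹ • volume.restrict (Iv β m)

theorem Iv_meas : MeasurableSet (Iv β m) := measurableSet_Icc

theorem Iv_vol (h : Par β m) : volume (Iv β m) ≠ 0 ∧ volume (Iv β m) ≠ ⊤ := by
  have h1 := (Iv_pos h).2
  unfold Iv
  rw [Real.volume_Icc, sub_zero]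
  refine ⟨?_, ENNReal.ofReal_ne_top⟩
  rw [Ne, ENNReal.ofReal_eq_zero]
  linarith

theorem mu_prob (h : Par β m) : IsProbabilityMeasure (mu β m) := by
  obtain ⟨h1, h2⟩ := Iv_vol h
  refine ⟨?_⟩
  unfold mu
  rw [Measure.smul_apply, Measure.restrict_apply MeasurableSet.univ, univ_inter, smul_eq_mul]
  exact ENNReal.inv_mul_cancel h1 h2

theorem mu_ae (h : Par β m) {q : ℝ → Prop} :
    (∀ᵐ y ∂(mu β m), q y) ↔ ∀ᵐ y ∂(volume.restrict (Iv β m)), q y := by
  obtain ⟨h1, h2⟩ := Iv_vol h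
  unfold mu
  exact Measure.ae_ennreal_smul_measure_iff (ENNReal.inv_ne_zero.2 h2)

theorem mu_le {g : ℝ → ℝ} (hg : Measurable g) (hI : ∀ y ∈ Iv β m, g y ∈ Iv β m)
    {D : ENNReal} (hD : ∀ B, MeasurableSet B → volume (g ⁻¹' B) ≤ D * volume B) {B : Set ℝ}
    (hB : MeasurableSet B) : mu β m (g ⁻¹' B) ≤ D * mu β m B := by
  unfold mu
  rw [Measure.smul_apply, Measure.smul_apply, Measure.restrict_apply (hg hB),
    Measure.restrict_apply hB, smul_eq_mul, smul_eq_mul]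
  have h1 : g ⁻¹' B ∩ Iv β m ⊆ g ⁻¹' (B ∩ Iv β m) := fun y hy => ⟨hy.1, hI y hy.2⟩
  calc _ ≤ (volume (Iv β m))⁻¹ * (D * volume (B ∩ Iv β m)) := by
        gcongr
        exact (measure_mono h1).trans (hD _ (hB.inter Iv_meas))
    _ = _ := by ring

/-- the points with an option after at most `R` digits -/
def OS (β : ℝ) (m R : ℕ) : Set ℝ :=
  {y | ∃ u : List ℕ, u.length ≤ R ∧ (∀ e ∈ u, e ≤ m) ∧ act β u y ∈ Ov β m}

theorem Ov_meas : MeasurableSet (Ov β m) := measurableSet_Icc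

theorem OS_meas (R : ℕ) : MeasurableSet (OS β m R) := by
  have : OS β m R = ⋃ u ∈ {u : List ℕ | u.length ≤ R ∧ ∀ e ∈ u, e ≤ m}, act β u ⁻¹' Ov β m := by
    ext y
    simp only [OS, Set.mem_ofPred_eq, mem_iUnion, mem_preimage, exists_prop, and_assoc]
  rw [this]
  exact MeasurableSet.biUnion (Set.to_countable _) fun u _ => act_meas u Ov_meas

def bit (b : Bool) : ℕ := if b then 1 else 0

def D1 (m R : ℕ) : ℕ := 1 + (fin_words m R).toFinset.card

theorem bit_le (h : Par β m) (b : Bool) : bit b ≤ m := by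
  have := (Iv_pos h).1
  unfold bit
  split_ifs <;> omega

theorem Ov_bit (h : Par β m) {z : ℝ} (hz : z ∈ Ov β m) (b : Bool) : β * z - bit b ∈ Iv β m := by
  obtain ⟨h1, h2⟩ := hz
  have hβ : 0 < β := by linarith [h.1]
  have h3 : 1 ≤ β * z := by
    rw [div_le_iff₀ hβ] at h1; linarith
  have h4 : β * z ≤ (m : ℝ) / (β - 1) := by
    rw [le_div_iff₀ hβ] at h2; linarith
  unfold bit Iv
  cases b
  · simp only [Bool.false_eq_true, if_false, Nat.cast_zero, sub_zero]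
    exact ⟨by linarith, h4⟩
  · simp only [if_true, Nat.cast_one]
    exact ⟨by linarith, by linarith⟩

open Classical in
theorem theta (h : Par β m) (R : ℕ) : ∃ u : Bool → ℝ → List ℕ,
    (∀ b w, MeasurableSet (u b ⁻¹' {w})) ∧
    (∀ y ∈ OS β m R, ∃ v : List ℕ, ∀ b, u b y = v ++ [bit b]) ∧
    (∀ b y, (u b y).length ≤ R + 1 ∧ ∀ e ∈ u b y, e ≤ m) ∧
    (∀ b, ∀ y ∈ Iv β m, act β (u b y) y ∈ Iv β m) ∧
    ∀ b B, MeasurableSet B → volume ((fun y => act β (u b y) y) ⁻¹' B) ≤ (D1 m R : ENNReal) * volume B := by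
  obtain ⟨s, s1, s2, s3⟩ := sel (fin_words m R).toFinset.toList (fun u => act β u ⁻¹' Ov β m)
    (fun u => act_meas u Ov_meas)
  have hs : ∀ y ∈ OS β m R, ((s y).length ≤ R ∧ ∀ e ∈ s y, e ≤ m) ∧ act β (s y) y ∈ Ov β m := by
    rintro y ⟨u, hu1, hu2, hu3⟩
    have := s3 y ⟨u, by simpa using ⟨hu1, hu2⟩, hu3⟩
    refine ⟨?_, this.2⟩
    have h1 := this.1
    rw [Finset.mem_toList, Set.Finite.mem_toFinset] at h1
    exact h1
  set u : Bool → ℝ → List ℕ := fun b y => if y ∈ OS β m R then s y ++ [bit b] else [] with hu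
  have hup : ∀ b, ∀ y ∈ OS β m R, u b y = s y ++ [bit b] := fun b y hy => by
    show (if y ∈ OS β m R then s y ++ [bit b] else []) = _
    rw [if_pos hy]
  have hun : ∀ b, ∀ y, y ∉ OS β m R → u b y = [] := fun b y hy => by
    show (if y ∈ OS β m R then s y ++ [bit b] else []) = _
    rw [if_neg hy]
  have hum : ∀ b w, MeasurableSet (u b ⁻¹' {w}) := by
    intro b w
    have : u b ⁻¹' {w} = (OS β m R ∩ ⋃ v ∈ {v : List ℕ | v ++ [bit b] = w}, s ⁻¹' {v}) ∪
        ((OS β m R)ᶜ ∩ {_y | [] = w}) := by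
      ext y
      by_cases hy : y ∈ OS β m R
      · simp [hup b y hy, hy]
      · simp [hun b y hy, hy]
    rw [this]
    refine ((OS_meas R).inter (MeasurableSet.biUnion (Set.to_countable _) fun v _ => s1 v)).union
      ((OS_meas R).compl.inter (MeasurableSet.const _))
  refine ⟨u, hum, ?_, ?_, ?_, ?_⟩
  · intro y hy
    exact ⟨s y, fun b => hup b y hy⟩
  · intro b y
    by_cases hy : y ∈ OS β m R
    · rw [hup b y hy]
      obtain ⟨⟨a1, a2⟩, _⟩ := hs y hy
      refine ⟨by simp; omega, fun e he => ?_⟩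
      rcases List.mem_append.1 he with he | he
      · exact a2 e he
      · rw [List.mem_singleton] at he; rw [he]; exact bit_le h b
    · rw [hun b y hy]; simp
  · intro b y hy
    by_cases hyo : y ∈ OS β m R
    · rw [hup b y hyo, Pool.Agent.Q314.BE.act_append]
      exact Ov_bit h (hs y hyo).2 b
    · rw [hun b y hyo]; exact hy
  · intro b B hB
    have hsub : (fun y => act β (u b y) y) ⁻¹' B ⊆
        B ∪ ⋃ v ∈ (fin_words m R).toFinset, act β (v ++ [bit b]) ⁻¹' B := by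
      intro y hy
      have hy' : act β (u b y) y ∈ B := hy
      by_cases hyo : y ∈ OS β m R
      · right
        rw [hup b y hyo] at hy'
        refine mem_iUnion₂.2 ⟨s y, ?_, hy'⟩
        rw [Set.Finite.mem_toFinset]
        exact (hs y hyo).1
      · left
        rw [hun b y hyo] at hy'
        exact hy'
    refine (measure_mono hsub).trans ((measure_union_le _ _).trans ?_)
    have h1 : volume (⋃ v ∈ (fin_words m R).toFinset, act β (v ++ [bit b]) ⁻¹' B) ≤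
        ((fin_words m R).toFinset.card : ENNReal) * volume B := by
      refine (measure_biUnion_finset_le _ _).trans ?_
      refine (Finset.sum_le_sum fun v _ => vol_act_le h.1 _ hB).trans ?_
      rw [Finset.sum_const, nsmul_eq_mul]
    unfold D1
    push_cast
    rw [add_mul, one_mul]
    gcongr

/-- the points with a good word -/
def HS (β : ℝ) (m : ℕ) (P p : ℕ → ℝ) (δ : ℝ) (C K n : ℕ) : Set ℝ :=
  {y | ∃ w, Gd m P p δ C K n w ∧ act β w y ∈ Iv β m}

theorem HS_meas (δ : ℝ) (C K n : ℕ) : MeasurableSet (HS β m P p δ C K n) := by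
  have : HS β m P p δ C K n = ⋃ w ∈ {w | Gd m P p δ C K n w}, act β w ⁻¹' Iv β m := by
    ext y
    simp only [HS, Set.mem_ofPred_eq, mem_iUnion, mem_preimage, exists_prop]
  rw [this]
  exact MeasurableSet.biUnion (Set.to_countable _) fun w _ => act_meas w Iv_meas

def AS (β : ℝ) (m : ℕ) (P p : ℕ → ℝ) (δ : ℝ) (C : ℕ) : Set ℝ :=
  {y | ∀ K, ∃ n0, ∀ n, n0 ≤ n → y ∈ HS β m P p δ C K n}

theorem AS_meas (δ : ℝ) (C : ℕ) : MeasurableSet (AS β m P p δ C) := by
  have : AS β m P p δ C = ⋂ K, ⋃ n0, ⋂ n, ⋂ (_ : n0 ≤ n), HS β m P p δ C K n := by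
    ext y
    simp only [AS, Set.mem_ofPred_eq, mem_iUnion, mem_iInter]
  rw [this]
  exact MeasurableSet.iInter fun K => MeasurableSet.iUnion fun n0 => MeasurableSet.iInter fun n =>
    MeasurableSet.iInter fun _ => HS_meas _ _ _ _

theorem AS_mono (δ : ℝ) {C C' : ℕ} (hC : C ≤ C') : AS β m P p δ C ⊆ AS β m P p δ C' := by
  intro y hy K
  obtain ⟨n0, hn0⟩ := hy K
  refine ⟨n0, fun n hn => ?_⟩
  obtain ⟨w, ⟨w1, w2, w3⟩, hw⟩ := hn0 n hn
  exact ⟨w, ⟨w1, w2, fun k hk => ⟨fun i hi => (w3 k hk).1 i (hC.trans hi), (w3 k hk).2⟩⟩, hw⟩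

theorem ex_R (h : Par β m) (hO : TaskOpt) (X : ℕ) : ∃ R, (X : ENNReal) * mu β m (OS β m R)ᶜ ≤ 1 := by
  have hp := mu_prob h
  have h1 : ∀ᵐ y ∂(mu β m), ∃ L, ∀ n ≥ L, y ∈ OS β m n := by
    rw [mu_ae h]
    filter_upwards [hO β m h] with y hy
    obtain ⟨u, hu1, hu2⟩ := hy
    exact ⟨u.length, fun n hn => ⟨u, hn, hu1, hu2⟩⟩
  obtain ⟨L, hL⟩ := taskTail (mu β m) (fun n => OS β m n) hp (fun n => OS_meas n) h1
    (X : ENNReal)⁻¹ (ENNReal.inv_ne_zero.2 (ENNReal.natCast_ne_top X))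
  refine ⟨L, ?_⟩
  calc _ ≤ (X : ENNReal) * (X : ENNReal)⁻¹ := by
        gcongr
        exact (measure_mono (t := {x | ∃ n ≥ L, x ∉ OS β m n}) (fun y hy => ⟨L, le_refl _, hy⟩)).trans hL
    _ ≤ 1 := ENNReal.mul_inv_le_one _

theorem ex_C (h : Par β m) (HE : ∀ᵐ y ∂(volume.restrict (Iv β m)), ∃ e, IsExp β m y e ∧ FB m P p e)
    {δ : ℝ} (hδ : 0 < δ) (X : ℕ) : ∃ C, (X : ENNReal) * mu β m (AS β m P p δ C)ᶜ ≤ 1 := by
  have hp := mu_prob h
  have h1 : ∀ᵐ y ∂(mu β m), ∃ L, ∀ n ≥ L, y ∈ AS β m P p δ n := by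
    rw [mu_ae h]
    filter_upwards [HE] with y hy
    obtain ⟨e, he1, he2⟩ := hy
    obtain ⟨C, hC⟩ := exp_good h he1 he2 hδ
    exact ⟨C, fun n hn => AS_mono δ hn hC⟩
  obtain ⟨L, hL⟩ := taskTail (mu β m) (fun n => AS β m P p δ n) hp (fun n => AS_meas _ n) h1
    (X : ENNReal)⁻¹ (ENNReal.inv_ne_zero.2 (ENNReal.natCast_ne_top X))
  refine ⟨L, ?_⟩
  calc _ ≤ (X : ENNReal) * (X : ENNReal)⁻¹ := by
        gcongr
        exact (measure_mono (t := {x | ∃ n ≥ L, x ∉ AS β m P p δ n}) (fun y hy => ⟨L, le_refl _, hy⟩)).trans hL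
    _ ≤ 1 := ENNReal.mul_inv_le_one _

theorem ex_n (h : Par β m) (δ : ℝ) (X C K lower : ℕ) : ∃ n, lower ≤ n ∧
    (X : ENNReal) * mu β m (AS β m P p δ C \ HS β m P p δ C K n) ≤ 1 := by
  have hp := mu_prob h
  have h1 : ∀ᵐ y ∂(mu β m), ∃ L, ∀ n ≥ L, y ∈ HS β m P p δ C K n ∪ (AS β m P p δ C)ᶜ := by
    refine Eventually.of_forall fun y => ?_
    by_cases hy : y ∈ AS β m P p δ C
    · obtain ⟨n0, hn0⟩ := hy K
      exact ⟨n0, fun n hn => Or.inl (hn0 n hn)⟩
    · exact ⟨0, fun n _ => Or.inr hy⟩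
  obtain ⟨L, hL⟩ := taskTail (mu β m) (fun n => HS β m P p δ C K n ∪ (AS β m P p δ C)ᶜ) hp
    (fun n => (HS_meas _ _ _ n).union (AS_meas _ _).compl) h1
    (X : ENNReal)⁻¹ (ENNReal.inv_ne_zero.2 (ENNReal.natCast_ne_top X))
  refine ⟨max L lower, le_max_right _ _, ?_⟩
  calc _ ≤ (X : ENNReal) * (X : ENNReal)⁻¹ := by
        gcongr
        refine (measure_mono fun y hy => ?_).trans hL
        refine ⟨max L lower, le_max_left _ _, fun h3 => ?_⟩
        rcases h3 with h3 | h3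
        · exact hy.2 h3
        · exact h3 hy.1
    _ ≤ 1 := ENNReal.mul_inv_le_one _

end Pool.Agent.Q186.PF
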