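import Pool.Agent.Q314.BE.Stmts

set_option autoImplicit false

/-!
MP_d4a354_an: continuum many expansions with prescribed digit frequencies (blueprint, helper186).
Prove `theorem taskX : TaskX` in `Pool/Agent/Q186/PF/TaskX.lean`.
-/

namespace Pool.Agent.Q186.PF

open MeasureTheory Filter Topology Set
open Pool.Agent.Q314.BE (act flat num orb)

/-- the interval `I_β = [0, m / (β - 1)]` -/
def Iv (β : ℝ) (m : ℕ) : Set ℝ := Icc 0 ((m : ℝ) / (β - 1))

/-- the points at which both digits `0` and `1` can be used: `βz ∈ I`, `βz - 1 ∈ I` -/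
def Ov (β : ℝ) (m : ℕ) : Set ℝ := Icc (1 / β) ((m : ℝ) / (β - 1) / β)

/-- parameters: `m + 1 > β > 1` -/
def Par (β : ℝ) (m : ℕ) : Prop := 1 < β ∧ β < m + 1 ∧ (m : ℝ) ≤ β

/-- almost every point of `I` can be led to `Ov`. Let `N ⊆ I` be the set of the points which cannot;
`N` is disjoint from `Ov`, which has positive length. If `y ∈ N` and `u` is a word of length `n`
with digits `≤ m` and `act u y ∈ I` (there is one for every `n`), then the interval
`J = {z | act u z ∈ I}` of length `β^{-n} |I|` contains `y` and `N ∩ J ⊆ {z | act u z ∈ N}`, so that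
`|N ∩ J| ≤ (|N| / |I|) |J|` with `|N| < |I|` : no point of `N` is a density point
(`Besicovitch.ae_tendsto_measure_inter_div` or `IsUnifLocDoublingMeasure`).-/
def TaskOpt : Prop := ∀ (β : ℝ) (m : ℕ), Par β m →
  ∀ᵐ y ∂(volume.restrict (Iv β m)), ∃ u : List ℕ, (∀ e ∈ u, e ≤ m) ∧ act β u y ∈ Ov β m

/-- choice of a word out of a set of words of length `n`, without increasing Lebesgue measure by
more than the factor `5`. The intervals `{y | act w y ∈ I} = [a_w, a_w + β^{-n}|I|]`, `w ∈ W` (a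
finite set) lie in `I`; keep in each cell `[i L, (i+1) L)`, `L = β^{-n} |I|`, only the words with the
smallest and with the largest `a_w`: at most `2 (β^n + 1) ≤ 4 β^n` words, same union. -/
def TaskPsi : Prop := ∀ (β : ℝ) (m : ℕ), Par β m → ∀ (n : ℕ) (W : Set (List ℕ)),
  (∀ w ∈ W, w.length = n ∧ ∀ e ∈ w, e ≤ m) →
  ∃ s : ℝ → List ℕ, (∀ w, MeasurableSet (s ⁻¹' {w})) ∧
    (∀ y, s y = [] ∨ (s y ∈ W ∧ act β (s y) y ∈ Iv β m)) ∧
    (∀ y, (∃ w ∈ W, act β w y ∈ Iv β m) → s y ∈ W ∧ act β (s y) y ∈ Iv β m) ∧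
    Measurable (fun y => act β (s y) y) ∧
    ∀ B, MeasurableSet B → volume ((fun y => act β (s y) y) ⁻¹' B) ≤ 5 * volume B

/-- number of digits `k` of `e` at the places `s, ..., s + i - 1` -/
def num' (e : ℕ → ℕ) (k s i : ℕ) : ℕ := ((Finset.range i).filter (fun t => e (s + t) = k)).card

/-- deterministic: digit frequencies along a concatenation of long segments -/
def TaskD : Prop := ∀ (e : ℕ → ℕ) (k : ℕ) (P p : ℝ) (s n C : ℕ → ℕ) (j0 : ℕ),
  0 ≤ p → p ≤ P → P ≤ 1 → 0 < s j0 →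
  (∀ j ≥ j0, s j + n j ≤ s (j + 1)) →
  (∀ j ≥ j0, (j + 1) * ((s (j + 1) - (s j + n j)) + C (j + 1)) ≤ n j) →
  (∀ j ≥ j0, ∀ i, C j ≤ i → i ≤ n j →
    (p - 1 / ((j : ℝ) + 1)) * i ≤ num' e k (s j) i ∧
    (num' e k (s j) i : ℝ) ≤ (P + 1 / ((j : ℝ) + 1)) * i) →
  (∀ j ≥ j0, ∃ i ≤ n j, (j + 1) * s j ≤ i ∧ (P - 1 / ((j : ℝ) + 1)) * i ≤ num' e k (s j) i) →
  (∀ j ≥ j0, ∃ i ≤ n j, (j + 1) * s j ≤ i ∧
    (num' e k (s j) i : ℝ) ≤ (p + 1 / ((j : ℝ) + 1)) * i) →
  limsup (fun n : ℕ => (num e k n : ℝ) / n) atTop = P ∧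
  liminf (fun n : ℕ => (num e k n : ℝ) / n) atTop = p

end Pool.Agent.Q186.PF
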