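import Pool.Agent.Q186.PF.Stmts

set_option autoImplicit false

namespace Pool.Agent.Q186.PF.TaskDAux

open Filter Topology

variable {c : ℕ → ℝ} {P : ℝ} {s n C : ℕ → ℕ} {j0 : ℕ}

/-- the growth of the starting points -/
theorem growth (hs : 0 < s j0) (hA : ∀ j ≥ j0, s j + n j ≤ s (j + 1))
    (hn : ∀ j ≥ j0, (j + 1) * s j ≤ n j) (d : ℕ) : d + 1 ≤ s (j0 + d) := by
  induction d with
  | zero => simpa using Nat.succ_le_of_lt hs
  | succ d ih =>
    have h1 := hA (j0 + d) (by omega)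
    have h2 := hn (j0 + d) (by omega)
    have h3 : s (j0 + d) ≤ (j0 + d + 1) * s (j0 + d) := Nat.le_mul_of_pos_left _ (by omega)
    rw [← add_assoc]
    omega

theorem C_le (hA : ∀ j ≥ j0, s j + n j ≤ s (j + 1))
    (hB : ∀ j ≥ j0, (j + 1) * ((s (j + 1) - (s j + n j)) + C (j + 1)) ≤ n j)
    (j : ℕ) (hj : j0 ≤ j) : (j + 1) * C (j + 1) ≤ s (j + 1) := by
  have h1 := hA j hj
  have h2 := hB j hj
  have h3 : (j + 1) * C (j + 1) ≤ (j + 1) * ((s (j + 1) - (s j + n j)) + C (j + 1)) :=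
    Nat.mul_le_mul_left _ (by omega)
  omega

theorem gap_le (hA : ∀ j ≥ j0, s j + n j ≤ s (j + 1))
    (hB : ∀ j ≥ j0, (j + 1) * ((s (j + 1) - (s j + n j)) + C (j + 1)) ≤ n j)
    (j : ℕ) (hj : j0 ≤ j) : ((j : ℝ) + 1) * ((s (j + 1) : ℝ) - s j - n j) ≤ n j := by
  have h1 := hA j hj
  have h2 := hB j hj
  have h3 : (j + 1) * (s (j + 1) - (s j + n j)) ≤ n j :=
    le_trans (Nat.mul_le_mul_left _ (by omega)) h2
  have h4 : (((j + 1) * (s (j + 1) - (s j + n j)) : ℕ) : ℝ) ≤ n j := by exact_mod_cast h3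
  rw [Nat.cast_mul, Nat.cast_sub h1] at h4
  push_cast at h4
  linarith [h4]

/-- the bound inside a segment -/
theorem segment (hP0 : 0 ≤ P) (hA : ∀ j ≥ j0, s j + n j ≤ s (j + 1))
    (hB : ∀ j ≥ j0, (j + 1) * ((s (j + 1) - (s j + n j)) + C (j + 1)) ≤ n j)
    (hlip : ∀ a b, c (a + b) ≤ c a + b)
    (hC : ∀ j ≥ j0, ∀ i, C j ≤ i → i ≤ n j →
      c (s j + i) - c (s j) ≤ (P + 1 / ((j : ℝ) + 1)) * i)
    (hn : ∀ j ≥ j0, (j + 1) * s j ≤ n j)
    (j : ℕ) (hj : j0 ≤ j) (m : ℕ) (hm1 : s (j + 1) ≤ m) (hm2 : m ≤ s (j + 2)) :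
    c m - P * m ≤ c (s (j + 1)) - P * s (j + 1) + 2 / ((j : ℝ) + 1) * m := by
  have hjp : (0 : ℝ) < (j : ℝ) + 1 := by positivity
  obtain ⟨i, rfl⟩ := Nat.exists_eq_add_of_le hm1
  have hCs := C_le hA hB j hj
  have hCs' : ((j : ℝ) + 1) * C (j + 1) ≤ s (j + 1) := by exact_mod_cast hCs
  have hn1 := hn (j + 1) (by omega)
  have hsn : s (j + 1) ≤ n (j + 1) :=
    le_trans (Nat.le_mul_of_pos_left _ (by omega)) hn1
  have hCn : C (j + 1) ≤ n (j + 1) := by
    have : C (j + 1) ≤ (j + 1) * C (j + 1) := Nat.le_mul_of_pos_left _ (by omega)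
    omega
  have hC' : ∀ i, C (j + 1) ≤ i → i ≤ n (j + 1) →
      c (s (j + 1) + i) - c (s (j + 1)) ≤ P * i + 1 / ((j : ℝ) + 1) * i := by
    intro i h1 h2
    refine (hC (j + 1) (by omega) i h1 h2).trans ?_
    rw [add_mul]
    have h3 : 1 / (((j + 1 : ℕ) : ℝ) + 1) ≤ 1 / ((j : ℝ) + 1) := by
      apply one_div_le_one_div_of_le hjp
      push_cast
      linarith
    have := mul_le_mul_of_nonneg_right h3 (Nat.cast_nonneg (α := ℝ) i)
    linarith
  have hi0 : (0 : ℝ) ≤ i := Nat.cast_nonneg i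
  have hs0 : (0 : ℝ) ≤ s (j + 1) := Nat.cast_nonneg _
  push_cast
  have e2 : 2 / ((j : ℝ) + 1) * ((s (j + 1) : ℝ) + i) =
      1 / ((j : ℝ) + 1) * s (j + 1) + 1 / ((j : ℝ) + 1) * s (j + 1) + 1 / ((j : ℝ) + 1) * i
        + 1 / ((j : ℝ) + 1) * i := by ring
  have hq0 : (0 : ℝ) ≤ 1 / ((j : ℝ) + 1) * s (j + 1) := by positivity
  have hq1 : (0 : ℝ) ≤ 1 / ((j : ℝ) + 1) * i := by positivity
  have hPi : 0 ≤ P * i := mul_nonneg hP0 hi0
  rw [e2]
  by_cases h1 : i < C (j + 1)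
  · have h2 := hlip (s (j + 1)) i
    have h3 : (i : ℝ) ≤ 1 / ((j : ℝ) + 1) * s (j + 1) := by
      rw [one_div, ← div_eq_inv_mul, le_div_iff₀ hjp]
      have h4 : (i : ℝ) ≤ C (j + 1) := by exact_mod_cast h1.le
      nlinarith
    linarith
  · push Not at h1
    by_cases h2 : i ≤ n (j + 1)
    · have h3 := hC' i h1 h2
      linarith
    · push Not at h2
      obtain ⟨r, rfl⟩ := Nat.exists_eq_add_of_le h2.le
      have h3 := hC' (n (j + 1)) hCn le_rfl
      have h4 := hlip (s (j + 1) + n (j + 1)) r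
      have h5 := gap_le hA hB (j + 1) (by omega)
      have h6 : ((s (j + 1) + (n (j + 1) + r) : ℕ) : ℝ) ≤ s (j + 2) := by exact_mod_cast hm2
      push_cast at h5 h6
      have h7 : (r : ℝ) ≤ 1 / ((j : ℝ) + 1) * n (j + 1) := by
        rw [one_div, ← div_eq_inv_mul, le_div_iff₀ hjp]
        have h8 : (r : ℝ) ≤ (s (j + 2) : ℝ) - s (j + 1) - n (j + 1) := by linarith
        have h9 : (r : ℝ) * ((j : ℝ) + 1) ≤ ((j : ℝ) + 1 + 1) * r := by
          nlinarith [Nat.cast_nonneg (α := ℝ) r]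
        have h10 : ((j : ℝ) + 1 + 1) * r ≤ ((j : ℝ) + 1 + 1) * ((s (j + 2) : ℝ) - s (j + 1) - n (j + 1)) :=
          mul_le_mul_of_nonneg_left h8 (by positivity)
        have h11 : ((j : ℝ) + 1 + 1) * ((s (j + 1 + 1) : ℝ) - s (j + 1) - n (j + 1)) ≤ n (j + 1) := h5
        exact h9.trans (h10.trans h11)
      rw [add_assoc] at h4
      push_cast at h4 ⊢
      have hr0 : (0 : ℝ) ≤ r := Nat.cast_nonneg r
      have hPr : 0 ≤ P * r := mul_nonneg hP0 hr0
      have hq2 : (0 : ℝ) ≤ 1 / ((j : ℝ) + 1) * r := by positivity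
      nlinarith

/-- the bound at all places of a segment -/
theorem segment' (hP0 : 0 ≤ P) (h0 : c 0 = 0) (hA : ∀ j ≥ j0, s j + n j ≤ s (j + 1))
    (hB : ∀ j ≥ j0, (j + 1) * ((s (j + 1) - (s j + n j)) + C (j + 1)) ≤ n j)
    (hlip : ∀ a b, c (a + b) ≤ c a + b)
    (hC : ∀ j ≥ j0, ∀ i, C j ≤ i → i ≤ n j →
      c (s j + i) - c (s j) ≤ (P + 1 / ((j : ℝ) + 1)) * i)
    (hn : ∀ j ≥ j0, (j + 1) * s j ≤ n j)
    (j : ℕ) (hj : j0 ≤ j) (m : ℕ) (hm1 : s (j + 2) ≤ m) (hm2 : m ≤ s (j + 3)) :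
    c m - P * m ≤ 5 / ((j : ℝ) + 1) * m := by
  have hjp : (0 : ℝ) < (j : ℝ) + 1 := by positivity
  have hs12 : s (j + 1) ≤ s (j + 2) := by
    have := hA (j + 1) (by omega)
    have e : j + 1 + 1 = j + 2 := by ring
    rw [e] at this
    omega
  have h1 := segment hP0 hA hB hlip hC hn j hj (s (j + 2)) hs12 le_rfl
  have h2 := segment hP0 hA hB hlip hC hn (j + 1) (by omega) m hm1 hm2
  have h3 : c (s (j + 1)) ≤ s (j + 1) := by
    have := hlip 0 (s (j + 1))
    rw [h0, zero_add, zero_add] at this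
    exact this
  have h4 : (s (j + 1) : ℝ) ≤ 1 / ((j : ℝ) + 1) * s (j + 2) := by
    rw [one_div, ← div_eq_inv_mul, le_div_iff₀ hjp]
    have h5 := hn (j + 1) (by omega)
    have h6 := hA (j + 1) (by omega)
    have e : j + 1 + 1 = j + 2 := by ring
    rw [e] at h6
    have h7 : (j + 1) * s (j + 1) ≤ s (j + 2) := by
      have : (j + 1) * s (j + 1) ≤ (j + 1 + 1) * s (j + 1) := Nat.mul_le_mul_right _ (by omega)
      omega
    have h8 : ((j : ℝ) + 1) * s (j + 1) ≤ s (j + 2) := by exact_mod_cast h7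
    linarith
  have h5 : 2 / (((j + 1 : ℕ) : ℝ) + 1) * (m : ℝ) ≤ 2 / ((j : ℝ) + 1) * m := by
    apply mul_le_mul_of_nonneg_right _ (Nat.cast_nonneg m)
    apply div_le_div_of_nonneg_left (by norm_num) hjp
    push_cast
    linarith
  have h6 : (s (j + 2) : ℝ) ≤ m := by exact_mod_cast hm1
  have h7 : 0 ≤ P * s (j + 1) := mul_nonneg hP0 (Nat.cast_nonneg _)
  have e2 : j + 1 + 1 = j + 2 := by ring
  rw [e2] at h2
  have h8 : c (s (j + 2)) - P * s (j + 2) ≤ 3 / ((j : ℝ) + 1) * s (j + 2) := by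
    have e3 : 3 / ((j : ℝ) + 1) * (s (j + 2) : ℝ) =
      1 / ((j : ℝ) + 1) * s (j + 2) + 2 / ((j : ℝ) + 1) * s (j + 2) := by ring
    rw [e3]
    linarith
  have h9 : 3 / ((j : ℝ) + 1) * (s (j + 2) : ℝ) ≤ 3 / ((j : ℝ) + 1) * m :=
    mul_le_mul_of_nonneg_left h6 (by positivity)
  have e4 : 5 / ((j : ℝ) + 1) * (m : ℝ) = 3 / ((j : ℝ) + 1) * m + 2 / ((j : ℝ) + 1) * m := by ring
  rw [e4]
  linarith

/-- the main lemma -/
theorem core (hP0 : 0 ≤ P) (hP1 : P ≤ 1) (hs : 0 < s j0) (h0 : c 0 = 0)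
    (hc0 : ∀ a, 0 ≤ c a)
    (hA : ∀ j ≥ j0, s j + n j ≤ s (j + 1))
    (hB : ∀ j ≥ j0, (j + 1) * ((s (j + 1) - (s j + n j)) + C (j + 1)) ≤ n j)
    (hlip : ∀ a b, c (a + b) ≤ c a + b)
    (hC : ∀ j ≥ j0, ∀ i, C j ≤ i → i ≤ n j →
      c (s j + i) - c (s j) ≤ (P + 1 / ((j : ℝ) + 1)) * i)
    (hD : ∀ j ≥ j0, ∃ i ≤ n j, (j + 1) * s j ≤ i ∧
      (P - 1 / ((j : ℝ) + 1)) * i ≤ c (s j + i) - c (s j)) :
    (∀ ε > 0, ∀ᶠ m : ℕ in atTop, c m ≤ (P + ε) * m) ∧
    (∀ ε > 0, ∃ᶠ m : ℕ in atTop, (P - ε) * m ≤ c m) := by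
  have hn : ∀ j ≥ j0, (j + 1) * s j ≤ n j := by
    intro j hj
    obtain ⟨i, h1, h2, -⟩ := hD j hj
    omega
  have hg := growth hs hA hn
  constructor
  · intro ε hε
    obtain ⟨K, hK⟩ := exists_nat_gt (5 / ε)
    set j1 := max j0 K with hj1
    have hj1' : j0 ≤ j1 := le_max_left _ _
    have hb : 5 / ((j1 : ℝ) + 1) ≤ ε := by
      rw [div_le_iff₀ (by positivity)]
      rw [div_lt_iff₀ hε] at hK
      have : (K : ℝ) ≤ j1 := by exact_mod_cast le_max_right j0 K
      nlinarith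
    have key : ∀ d m : ℕ, s (j1 + 2) ≤ m → m ≤ s (j1 + 2 + d) →
        c m - P * m ≤ 5 / ((j1 : ℝ) + 1) * m := by
      intro d
      induction d with
      | zero =>
        intro m h1 h2
        refine segment' hP0 h0 hA hB hlip hC hn j1 hj1' m h1 ?_
        have := hA (j1 + 2) (by omega)
        have e : j1 + 2 + 1 = j1 + 3 := by ring
        rw [e] at this
        simp only [add_zero] at h2
        omega
      | succ d ih =>
        intro m h1 h2
        by_cases h3 : m ≤ s (j1 + 2 + d)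
        · exact ih m h1 h3
        · push Not at h3
          have h4 := segment' hP0 h0 hA hB hlip hC hn (j1 + d) (by omega) m
            (by have e : j1 + d + 2 = j1 + 2 + d := by ring
                rw [e]; omega)
            (by have e : j1 + d + 3 = j1 + 2 + (d + 1) := by ring
                rw [e]; exact h2)
          refine h4.trans (mul_le_mul_of_nonneg_right ?_ (Nat.cast_nonneg m))
          apply div_le_div_of_nonneg_left (by norm_num) (by positivity)
          push_cast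
          have : (0 : ℝ) ≤ d := Nat.cast_nonneg d
          linarith
    filter_upwards [eventually_ge_atTop (s (j1 + 2))] with m hm
    have h1 := hg (j1 + 2 - j0 + m)
    have e : j0 + (j1 + 2 - j0 + m) = j1 + 2 + m := by omega
    rw [e] at h1
    have h2 := key m m hm (by omega)
    have h3 : 5 / ((j1 : ℝ) + 1) * (m : ℝ) ≤ ε * m := mul_le_mul_of_nonneg_right hb (Nat.cast_nonneg m)
    rw [add_mul]
    linarith
  · intro ε hε
    rw [frequently_atTop]
    intro N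
    obtain ⟨K, hK⟩ := exists_nat_gt (2 / ε)
    set j := j0 + K + N with hj
    obtain ⟨i, h1, h2, h3⟩ := hD j (by omega)
    have hsj : 1 ≤ s j := by
      have := hg (K + N)
      have e : j0 + (K + N) = j := by omega
      rw [e] at this
      omega
    refine ⟨s j + i, ?_, ?_⟩
    · have : j + 1 ≤ (j + 1) * s j := Nat.le_mul_of_pos_right _ (by omega)
      omega
    · have hjp : (0 : ℝ) < (j : ℝ) + 1 := by positivity
      have hb : 2 / ((j : ℝ) + 1) ≤ ε := by
        rw [div_le_iff₀ hjp]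
        rw [div_lt_iff₀ hε] at hK
        have : (K : ℝ) ≤ j := by exact_mod_cast (show K ≤ j by omega)
        nlinarith
      have h4 : (s j : ℝ) ≤ 1 / ((j : ℝ) + 1) * i := by
        rw [one_div, ← div_eq_inv_mul, le_div_iff₀ hjp]
        have : (((j + 1) * s j : ℕ) : ℝ) ≤ i := by exact_mod_cast h2
        push_cast at this
        linarith
      have h5 := hc0 (s j)
      have h6 : 2 / ((j : ℝ) + 1) * ((s j : ℝ) + i) ≤ ε * ((s j : ℝ) + i) :=
        mul_le_mul_of_nonneg_right hb (by positivity)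
      have e1 : 2 / ((j : ℝ) + 1) * ((s j : ℝ) + i) = 1 / ((j : ℝ) + 1) * s j +
        1 / ((j : ℝ) + 1) * s j + 1 / ((j : ℝ) + 1) * i + 1 / ((j : ℝ) + 1) * i := by ring
      have h7 : (0 : ℝ) ≤ 1 / ((j : ℝ) + 1) * s j := by positivity
      have h8 : P * (s j : ℝ) ≤ s j := by
        have := mul_le_mul_of_nonneg_right hP1 (Nat.cast_nonneg (α := ℝ) (s j))
        linarith
      push_cast
      rw [sub_mul] at h3 ⊢
      nlinarith

end Pool.Agent.Q186.PF.TaskDAux

namespace Pool.Agent.Q186.PF.TaskDAux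

open Filter Topology
open Pool.Agent.Q314.BE (num)

theorem num_add (e : ℕ → ℕ) (k a b : ℕ) : num e k (a + b) = num e k a + num' e k a b := by
  unfold num num'
  rw [Finset.card_filter, Finset.card_filter, Finset.card_filter, Finset.sum_range_add]

theorem num'_le (e : ℕ → ℕ) (k a b : ℕ) : num' e k a b ≤ b := by
  unfold num'
  exact (Finset.card_filter_le _ _).trans (by simp)

theorem limsup_of (u : ℕ → ℝ) (P : ℝ) (h0 : ∀ a, 0 ≤ u a) (h1 : ∀ a, u a ≤ a)
    (hu : ∀ ε > 0, ∀ᶠ m : ℕ in atTop, u m ≤ (P + ε) * m)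
    (hl : ∀ ε > 0, ∃ᶠ m : ℕ in atTop, (P - ε) * m ≤ u m) :
    limsup (fun m : ℕ => u m / m) atTop = P := by
  have b1 : IsBoundedUnder (· ≤ ·) atTop (fun m : ℕ => u m / m) := by
    refine isBoundedUnder_of ⟨1, fun m => ?_⟩
    exact div_le_one_of_le₀ (h1 m) (Nat.cast_nonneg m)
  have b2 : IsBoundedUnder (· ≥ ·) atTop (fun m : ℕ => u m / m) := by
    refine isBoundedUnder_of ⟨0, fun m => ?_⟩
    exact div_nonneg (h0 m) (Nat.cast_nonneg m)
  apply le_antisymm
  · refine le_of_forall_pos_le_add fun ε hε => ?_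
    refine limsup_le_of_le b2.isCobounded_flip ?_
    filter_upwards [hu ε hε, eventually_gt_atTop 0] with m hm hm0
    rw [div_le_iff₀ (by exact_mod_cast hm0)]
    exact hm
  · refine le_of_forall_pos_sub_le fun ε hε => ?_
    refine le_limsup_of_frequently_le ?_ b1
    refine ((hl ε hε).and_eventually (eventually_gt_atTop 0)).mono fun m hm => ?_
    rw [le_div_iff₀ (by exact_mod_cast hm.2)]
    exact hm.1

theorem liminf_of (u : ℕ → ℝ) (P : ℝ) (h0 : ∀ a, 0 ≤ u a) (h1 : ∀ a, u a ≤ a)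
    (hu : ∀ ε > 0, ∀ᶠ m : ℕ in atTop, (P - ε) * m ≤ u m)
    (hl : ∀ ε > 0, ∃ᶠ m : ℕ in atTop, u m ≤ (P + ε) * m) :
    liminf (fun m : ℕ => u m / m) atTop = P := by
  have b1 : IsBoundedUnder (· ≤ ·) atTop (fun m : ℕ => u m / m) := by
    refine isBoundedUnder_of ⟨1, fun m => ?_⟩
    exact div_le_one_of_le₀ (h1 m) (Nat.cast_nonneg m)
  have b2 : IsBoundedUnder (· ≥ ·) atTop (fun m : ℕ => u m / m) := by
    refine isBoundedUnder_of ⟨0, fun m => ?_⟩
    exact div_nonneg (h0 m) (Nat.cast_nonneg m)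
  apply le_antisymm
  · refine le_of_forall_pos_le_add fun ε hε => ?_
    refine liminf_le_of_frequently_le ?_ b2
    refine ((hl ε hε).and_eventually (eventually_gt_atTop 0)).mono fun m hm => ?_
    rw [div_le_iff₀ (by exact_mod_cast hm.2)]
    exact hm.1
  · refine le_of_forall_pos_sub_le fun ε hε => ?_
    refine le_liminf_of_le b1.isCobounded_flip ?_
    filter_upwards [hu ε hε, eventually_gt_atTop 0] with m hm hm0
    rw [le_div_iff₀ (by exact_mod_cast hm0)]
    exact hm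

end Pool.Agent.Q186.PF.TaskDAux

namespace Pool.Agent.Q186.PF

open Filter Topology
open Pool.Agent.Q314.BE (num)
open TaskDAux

theorem taskD : TaskD := by
  intro e k P p s n C j0 hp hpP hP1 hs hA hB hC hD hE
  have hadd : ∀ a b : ℕ, (num e k (a + b) : ℝ) = num e k a + num' e k a b := by
    intro a b
    rw [num_add]
    push_cast
    ring
  have hle : ∀ a b : ℕ, (num' e k a b : ℝ) ≤ b := fun a b => by exact_mod_cast num'_le e k a b
  have hnn : ∀ a b : ℕ, (0 : ℝ) ≤ num' e k a b := fun a b => Nat.cast_nonneg _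
  have hz : (num e k 0 : ℝ) = 0 := by simp [num]
  have hnum : ∀ a : ℕ, (num e k a : ℝ) ≤ a := by
    intro a
    have h1 := hadd 0 a
    rw [hz, zero_add, zero_add] at h1
    rw [h1]
    exact hle 0 a
  have h1 := core (c := fun a => (num e k a : ℝ)) (P := P) (s := s) (n := n) (C := C) (j0 := j0)
    (hp.trans hpP) hP1 hs hz (fun a => Nat.cast_nonneg _) hA hB
    (fun a b => by
      have := hadd a b
      have := hle a b
      linarith)
    (fun j hj i hi1 hi2 => by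
      have h1 := (hC j hj i hi1 hi2).2
      have h2 := hadd (s j) i
      linarith)
    (fun j hj => by
      obtain ⟨i, h1, h2, h3⟩ := hD j hj
      have h4 := hadd (s j) i
      exact ⟨i, h1, h2, by linarith⟩)
  have h2 := core (c := fun a => (a : ℝ) - num e k a) (P := 1 - p) (s := s) (n := n) (C := C)
    (j0 := j0) (by linarith) (by linarith) hs (by simp [hz])
    (fun a => by
      have := hnum a
      linarith) hA hB
    (fun a b => by
      have h3 := hadd a b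
      have h4 := hnn a b
      push_cast
      linarith)
    (fun j hj i hi1 hi2 => by
      have h3 := (hC j hj i hi1 hi2).1
      have h4 := hadd (s j) i
      push_cast
      rw [sub_mul] at h3
      rw [add_mul, sub_mul, one_mul]
      linarith)
    (fun j hj => by
      obtain ⟨i, h3, h4, h5⟩ := hE j hj
      have h6 := hadd (s j) i
      refine ⟨i, h3, h4, ?_⟩
      push_cast
      rw [add_mul] at h5
      rw [sub_mul, sub_mul, one_mul]
      linarith)
  refine ⟨limsup_of _ P (fun a => Nat.cast_nonneg _) hnum h1.1 h1.2, ?_⟩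
  refine liminf_of _ p (fun a => Nat.cast_nonneg _) hnum ?_ ?_
  · intro ε hε
    filter_upwards [h2.1 ε hε] with m hm
    have hm' : (m : ℝ) - num e k m ≤ (1 - p + ε) * m := hm
    have e1 : (1 - p + ε) * (m : ℝ) = m - (p - ε) * m := by ring
    rw [e1] at hm'
    linarith
  · intro ε hε
    refine (h2.2 ε hε).mono fun m hm => ?_
    have hm' : (1 - p - ε) * (m : ℝ) ≤ (m : ℝ) - num e k m := hm
    have e1 : (1 - p - ε) * (m : ℝ) = m - (p + ε) * m := by ring
    rw [e1] at hm'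
    linarith

end Pool.Agent.Q186.PF
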