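import Pool.Agent.Q186.PF.Stmts
import Pool.Agent.Q314.BE.TaskScale

set_option autoImplicit false

/-! Proof of `TaskOpt` (helper95). -/

namespace Pool.Agent.Q186.PF

open MeasureTheory Filter Topology Set
open Pool.Agent.Q314.BE (act flat num orb)

private theorem act_diff95 (β : ℝ) (u : List ℕ) : ∀ x y : ℝ,
    act β u x - act β u y = β ^ u.length * (x - y) := by
  induction u with
  | nil => intro x y; simp [act]
  | cons e u ih =>
    intro x y
    rw [Pool.Agent.Q314.BE.act_cons, Pool.Agent.Q314.BE.act_cons, ih, List.length_cons, pow_succ]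
    ring

private theorem digit95 {β : ℝ} {m : ℕ} (hP : Par β m) {y : ℝ} (hy : y ∈ Iv β m) :
    ∃ d ≤ m, β * y - d ∈ Iv β m := by
  obtain ⟨h1, h2, h3⟩ := hP
  have hb : 0 < β - 1 := by linarith
  have hL1 : 1 ≤ (m : ℝ) / (β - 1) := by rw [le_div_iff₀ hb]; linarith
  have hbL : β * ((m : ℝ) / (β - 1)) = (m : ℝ) / (β - 1) + m := by field_simp; ring
  have hy1 : 0 ≤ y := hy.1
  have hy2 : y ≤ (m : ℝ) / (β - 1) := hy.2
  have hby0 : 0 ≤ β * y := by positivity
  have hby : β * y ≤ (m : ℝ) / (β - 1) + m := by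
    rw [← hbL]; exact mul_le_mul_of_nonneg_left hy2 (by linarith)
  rcases le_or_gt (m : ℝ) (β * y) with h | h
  · exact ⟨m, le_rfl, by constructor <;> linarith⟩
  · refine ⟨⌊β * y⌋₊, ?_, ?_, ?_⟩
    · have : ⌊β * y⌋₊ < m := (Nat.floor_lt hby0).2 h
      exact this.le
    · have := Nat.floor_le hby0
      linarith
    · have := Nat.lt_floor_add_one (β * y)
      linarith

private theorem word95 {β : ℝ} {m : ℕ} (hP : Par β m) (n : ℕ) : ∀ y ∈ Iv β m,
    ∃ u : List ℕ, u.length = n ∧ (∀ e ∈ u, e ≤ m) ∧ act β u y ∈ Iv β m := by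
  induction n with
  | zero => intro y hy; exact ⟨[], rfl, by simp, hy⟩
  | succ n ih =>
    intro y hy
    obtain ⟨d, hd, hd2⟩ := digit95 hP hy
    obtain ⟨u, hu1, hu2, hu3⟩ := ih _ hd2
    refine ⟨d :: u, by simp [hu1], ?_, ?_⟩
    · intro e he
      rcases List.mem_cons.1 he with rfl | he
      · exact hd
      · exact hu2 e he
    · rw [Pool.Agent.Q314.BE.act_cons]; exact hu3

theorem taskOpt : TaskOpt := by
  intro β m hP
  have hP' := hP
  obtain ⟨h1, h2, h3⟩ := hP'
  have hb0 : 0 < β := by linarith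
  have hb : 0 < β - 1 := by linarith
  set L : ℝ := (m : ℝ) / (β - 1) with hL
  have hL1 : 1 < L := by rw [hL, lt_div_iff₀ hb]; linarith
  have hL0 : 0 < L := by linarith
  let N : Set ℝ := {y | y ∈ Iv β m ∧ ∀ u : List ℕ, (∀ e ∈ u, e ≤ m) → act β u y ∉ Ov β m}
  have hOvI : Ov β m ⊆ Iv β m := by
    intro y hy
    refine ⟨le_trans (by positivity) hy.1, le_trans hy.2 ?_⟩
    exact div_le_self hL0.le h1.le
  have hOvM : MeasurableSet (Ov β m) := measurableSet_Icc
  have hIM : MeasurableSet (Iv β m) := measurableSet_Icc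
  have hNM : MeasurableSet N := by
    have : N = Iv β m ∩ ⋂ u : List ℕ, {y | (∀ e ∈ u, e ≤ m) → act β u y ∉ Ov β m} := by
      ext y; simp [N]
    rw [this]
    refine hIM.inter (MeasurableSet.iInter fun u => ?_)
    by_cases hu : ∀ e ∈ u, e ≤ m
    · have e : {y | (∀ e ∈ u, e ≤ m) → act β u y ∉ Ov β m} = {y | act β u y ∈ Ov β m}ᶜ := by
        ext y
        simp only [mem_setOf_eq, mem_compl_iff]
        exact ⟨fun h => h hu, fun h _ => h⟩
      rw [e]
      exact (Pool.Agent.Q314.BE.taskScale β h1 u _ hOvM).1.compl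
    · have e : {y | (∀ e ∈ u, e ≤ m) → act β u y ∉ Ov β m} = univ := by
        ext y
        simp only [mem_setOf_eq, mem_univ, iff_true]
        exact fun h => absurd h hu
      rw [e]; exact MeasurableSet.univ
  have hvI : volume (Iv β m) = ENNReal.ofReal L := by
    rw [Iv, Real.volume_Icc, sub_zero]
  have hvO : 0 < volume (Ov β m) := by
    rw [Ov, Real.volume_Icc, ENNReal.ofReal_pos, ← sub_div]
    exact div_pos (by linarith) hb0
  have hNlt : volume N < ENNReal.ofReal L := by
    have hsub : N ⊆ Iv β m \ Ov β m := fun y hy => ⟨hy.1, fun h => hy.2 [] (by simp) h⟩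
    refine lt_of_le_of_lt (measure_mono hsub) ?_
    rw [measure_diff hOvI hOvM.nullMeasurableSet
      (ne_top_of_le_ne_top (by rw [hvI]; exact ENNReal.ofReal_ne_top) (measure_mono hOvI)), hvI]
    exact ENNReal.sub_lt_self ENNReal.ofReal_ne_top
      (by rw [Ne, ENNReal.ofReal_eq_zero]; linarith) hvO.ne'
  obtain ⟨a, ha0, haN⟩ : ∃ a : ℝ, 0 ≤ a ∧ volume N = ENNReal.ofReal a :=
    ⟨(volume N).toReal, ENNReal.toReal_nonneg, (ENNReal.ofReal_toReal hNlt.ne_top).symm⟩
  have haL : a < L := by
    rw [haN] at hNlt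
    exact (ENNReal.ofReal_lt_ofReal_iff hL0).1 hNlt
  -- the main estimate
  have hmain : ∀ y ∈ N, ∀ n : ℕ,
      volume (N ∩ Metric.closedBall y (L / β ^ n)) / volume (Metric.closedBall y (L / β ^ n)) ≤
        ENNReal.ofReal ((a + L) / (2 * L)) := by
    intro y hy n
    obtain ⟨u, hu1, hu2, hu3⟩ := word95 hP n y hy.1
    have hpn : 0 < β ^ n := by positivity
    set r : ℝ := L / β ^ n with hr
    have hr0 : 0 < r := by positivity
    let J : Set ℝ := {z | act β u z ∈ Iv β m}
    have hJM : MeasurableSet J := (Pool.Agent.Q314.BE.taskScale β h1 u _ hIM).1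
    have hJv : volume J = ENNReal.ofReal r := by
      have := (Pool.Agent.Q314.BE.taskScale β h1 u _ hIM).2
      rw [hu1, hvI, ← ENNReal.ofReal_mul (by positivity)] at this
      rw [this, hr, div_eq_inv_mul]
    have hJB : J ⊆ Metric.closedBall y r := by
      intro z hz
      rw [Metric.mem_closedBall, Real.dist_eq]
      have h4 := act_diff95 β u z y
      rw [hu1] at h4
      have h5 : |act β u z - act β u y| ≤ L := by
        rw [abs_le]
        have z1 : 0 ≤ act β u z := hz.1
        have z2 : act β u z ≤ L := hz.2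
        have y1 : 0 ≤ act β u y := hu3.1
        have y2 : act β u y ≤ L := hu3.2
        constructor <;> linarith
      rw [h4, abs_mul, abs_of_pos hpn] at h5
      rw [hr, le_div_iff₀ hpn, mul_comm]
      exact h5
    have hBv : volume (Metric.closedBall y r) = ENNReal.ofReal (2 * r) := Real.volume_closedBall y r
    have hNJ : volume (N ∩ J) ≤ ENNReal.ofReal ((β ^ n)⁻¹ * a) := by
      have hsub : N ∩ J ⊆ {z | act β u z ∈ N} := by
        rintro z ⟨hzN, hzJ⟩
        refine ⟨hzJ, fun u' hu' hmem => hzN.2 (u ++ u') ?_ ?_⟩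
        · intro e he
          rcases List.mem_append.1 he with he | he
          · exact hu2 e he
          · exact hu' e he
        · rw [Pool.Agent.Q314.BE.act_append]; exact hmem
      refine (measure_mono hsub).trans ?_
      rw [(Pool.Agent.Q314.BE.taskScale β h1 u _ hNM).2, hu1, haN,
        ← ENNReal.ofReal_mul (by positivity)]
    have hBJ : volume (Metric.closedBall y r \ J) = ENNReal.ofReal r := by
      rw [measure_diff hJB hJM.nullMeasurableSet (by rw [hJv]; exact ENNReal.ofReal_ne_top),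
        hBv, hJv, ← ENNReal.ofReal_sub _ hr0.le]
      congr 1; ring
    have hNB : volume (N ∩ Metric.closedBall y r) ≤ ENNReal.ofReal ((β ^ n)⁻¹ * a + r) := by
      have hsub : N ∩ Metric.closedBall y r ⊆ (N ∩ J) ∪ (Metric.closedBall y r \ J) := by
        rintro z ⟨hz1, hz2⟩
        by_cases hz : z ∈ J
        · exact Or.inl ⟨hz1, hz⟩
        · exact Or.inr ⟨hz2, hz⟩
      refine (measure_mono hsub).trans ((measure_union_le _ _).trans ?_)
      rw [ENNReal.ofReal_add (by positivity) hr0.le, hBJ]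
      exact add_le_add hNJ le_rfl
    have hq : (a + L) / (2 * L) = ((β ^ n)⁻¹ * a + r) / (2 * r) := by
      rw [hr]; field_simp
    rw [hBv, hq, ENNReal.ofReal_div_of_pos (by positivity)]
    exact ENNReal.div_le_div_right hNB _
  have hq1 : ENNReal.ofReal ((a + L) / (2 * L)) < 1 := by
    rw [← ENNReal.ofReal_one, ENNReal.ofReal_lt_ofReal_iff one_pos, div_lt_one (by positivity)]
    linarith
  have hN0 : volume N = 0 := by
    have hd := Besicovitch.ae_tendsto_measure_inter_div (volume : Measure ℝ) N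
    have hlim : Tendsto (fun n : ℕ => L / β ^ n) atTop (𝓝[>] 0) := by
      rw [tendsto_nhdsWithin_iff]
      refine ⟨?_, Eventually.of_forall fun n => ?_⟩
      · have := (tendsto_inv_atTop_zero.comp (tendsto_pow_atTop_atTop_of_one_lt h1)).const_mul L
        simpa [div_eq_mul_inv, Function.comp_def] using this
      · exact div_pos hL0 (by positivity)
    have hF : ∀ᵐ y ∂(volume.restrict N), False := by
      filter_upwards [hd, ae_restrict_mem hNM] with y hy hyN
      have h6 := hy.comp hlim
      have h7 := le_of_tendsto' h6 (fun n => hmain y hyN n)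
      exact absurd hq1 (not_lt.mpr h7)
    rw [ae_iff] at hF
    simpa using hF
  rw [ae_restrict_iff' hIM, ae_iff]
  refine measure_mono_null ?_ hN0
  intro y hy
  simp only [mem_setOf_eq, Classical.not_imp, not_exists, not_and] at hy
  exact ⟨hy.1, hy.2⟩

end Pool.Agent.Q186.PF
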