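import Pool.Agent.Q186.PF.Stmts
import Pool.Agent.Q314.BE.TaskScale

set_option autoImplicit false

namespace Pool.Agent.Q186.PF

open MeasureTheory Filter Topology Set
open Pool.Agent.Q314.BE (act flat num orb)

private theorem act_cons (β : ℝ) (e : ℕ) (w : List ℕ) (x : ℝ) :
    act β (e :: w) x = act β w (β * x - e) := rfl

private theorem act_affine (β : ℝ) (w : List ℕ) : ∀ x, act β w x = β ^ w.length * x + act β w 0 := by
  induction w with
  | nil => intro x; simp [act]
  | cons e w ih =>
    intro x
    rw [act_cons, act_cons, ih, ih (β * 0 - e), List.length_cons, pow_succ]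
    ring

private theorem act_bd (β : ℝ) (m : ℕ) (h1 : 1 < β) (w : List ℕ) :
    (∀ e ∈ w, e ≤ m) → 0 ≤ - act β w 0 ∧
      - act β w 0 ≤ (m : ℝ) / (β - 1) * (β ^ w.length - 1) := by
  induction w with
  | nil => intro _; simp [act]
  | cons e w ih =>
    intro h
    obtain ⟨i1, i2⟩ := ih (fun e' he' => h e' (List.mem_cons_of_mem _ he'))
    have he : (e : ℝ) ≤ m := by exact_mod_cast h e List.mem_cons_self
    have hb : 0 < β - 1 := by linarith
    have hp : 0 < β ^ w.length := by positivity
    have e0 : act β (e :: w) 0 = - (β ^ w.length * e) + act β w 0 := by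
      rw [act_cons, act_affine]; ring
    rw [e0, List.length_cons, pow_succ]
    constructor
    · have : 0 ≤ β ^ w.length * (e : ℝ) := by positivity
      linarith
    · have h3 : β ^ w.length * (e : ℝ) ≤ β ^ w.length * m := mul_le_mul_of_nonneg_left he hp.le
      have h4 : (m : ℝ) / (β - 1) * (β ^ w.length * β - 1) =
          (m : ℝ) / (β - 1) * (β ^ w.length - 1) + β ^ w.length * m := by
        field_simp
        ring
      rw [h4]
      linarith

private theorem words_finite (m n : ℕ) (W : Set (List ℕ))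
    (hW : ∀ w ∈ W, w.length = n ∧ ∀ e ∈ w, e ≤ m) : W.Finite := by
  refine (Set.finite_range (fun f : Fin n → Fin (m + 1) => List.ofFn (fun i => (f i : ℕ)))).subset ?_
  intro w hw
  obtain ⟨h1, h2⟩ := hW w hw
  subst h1
  refine ⟨fun i => ⟨w.get i, Nat.lt_succ_of_le (h2 _ (List.get_mem w i))⟩, ?_⟩
  simp

/-- at most two words for each cell -/
private theorem cell (β : ℝ) (m : ℕ) (hP : Par β m) (n : ℕ) (W : Set (List ℕ))
    (hW : ∀ w ∈ W, w.length = n ∧ ∀ e ∈ w, e ≤ m) (i : ℕ) :
    ∃ G : List (List ℕ), G.length ≤ 2 ∧ (∀ w ∈ G, w ∈ W) ∧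
      ∀ w ∈ W, ⌊(- act β w 0) / ((m : ℝ) / (β - 1))⌋₊ = i →
        ∀ y, act β w y ∈ Iv β m → ∃ w' ∈ G, act β w' y ∈ Iv β m := by
  obtain ⟨h1, h2, h3⟩ := hP
  have hb : 0 < β - 1 := by linarith
  have hl : 0 < (m : ℝ) / (β - 1) := div_pos (by linarith) hb
  set l : ℝ := (m : ℝ) / (β - 1) with hldef
  set C : Set (List ℕ) := {w | w ∈ W ∧ ⌊(- act β w 0) / l⌋₊ = i} with hC
  have hCf : C.Finite := (words_finite m n W hW).subset (fun w hw => hw.1)
  rcases C.eq_empty_or_nonempty with h0 | h0
  · refine ⟨[], by simp, by simp, ?_⟩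
    intro w hw hi
    have : w ∈ C := ⟨hw, hi⟩
    rw [h0] at this
    exact this.elim
  · obtain ⟨a, ha, hamin⟩ := Set.exists_min_image C (fun w => - act β w 0) hCf h0
    obtain ⟨b, hb', hbmax⟩ := Set.exists_max_image C (fun w => - act β w 0) hCf h0
    refine ⟨[a, b], by simp, ?_, ?_⟩
    · intro w hw
      rcases List.mem_cons.1 hw with rfl | hw
      · exact ha.1
      · rw [List.mem_singleton] at hw
        rw [hw]; exact hb'.1
    · intro w hw hi y hy
      have hwC : w ∈ C := ⟨hw, hi⟩
      have m1 := hamin w hwC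
      have m2 := hbmax w hwC
      have ta : 0 ≤ (- act β a 0) / l := div_nonneg (act_bd β m h1 a (hW a ha.1).2).1 hl.le
      have tb : 0 ≤ (- act β b 0) / l := div_nonneg (act_bd β m h1 b (hW b hb'.1).2).1 hl.le
      have fa := (Nat.floor_eq_iff ta).1 ha.2
      have fb := (Nat.floor_eq_iff tb).1 hb'.2
      have k1 : (i : ℝ) * l ≤ - act β a 0 := (le_div_iff₀ hl).1 fa.1
      have k2 : - act β b 0 < ((i : ℝ) + 1) * l := (div_lt_iff₀ hl).1 fb.2
      have lw : w.length = n := (hW w hw).1
      have la : a.length = n := (hW a ha.1).1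
      have lb : b.length = n := (hW b hb'.1).1
      unfold Iv at hy ⊢
      rw [act_affine, lw, ← hldef] at hy
      by_cases hc : β ^ n * y ≤ - act β a 0 + l
      · refine ⟨a, by simp, ?_⟩
        rw [act_affine, la, ← hldef]
        constructor
        · linarith [hy.1]
        · linarith
      · refine ⟨b, by simp, ?_⟩
        rw [act_affine, lb, ← hldef]
        push Not at hc
        constructor
        · nlinarith
        · linarith [hy.2]

/-- few words -/
private theorem few (β : ℝ) (m : ℕ) (hP : Par β m) (n : ℕ) (W : Set (List ℕ))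
    (hW : ∀ w ∈ W, w.length = n ∧ ∀ e ∈ w, e ≤ m) :
    ∃ F : List (List ℕ), (F.length : ℝ) ≤ 2 * β ^ n ∧ (∀ w ∈ F, w ∈ W) ∧
      ∀ w ∈ W, ∀ y, act β w y ∈ Iv β m → ∃ w' ∈ F, act β w' y ∈ Iv β m := by
  choose G hG1 hG2 hG3 using cell β m hP n W hW
  obtain ⟨h1, h2, h3⟩ := hP
  have hb : 0 < β - 1 := by linarith
  have hl : 0 < (m : ℝ) / (β - 1) := div_pos (by linarith) hb
  have hpos : (0 : ℝ) < β ^ n := by positivity
  refine ⟨(List.range ⌊β ^ n⌋₊).flatMap G, ?_, ?_, ?_⟩
  · have e1 : ∀ k : ℕ, ((List.range k).flatMap G).length ≤ 2 * k := by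
      intro k
      induction k with
      | zero => simp
      | succ k ih =>
        rw [List.range_succ, List.flatMap_append, List.length_append]
        have := hG1 k
        simp only [List.flatMap_cons, List.flatMap_nil, List.append_nil]
        omega
    have e2 := e1 ⌊β ^ n⌋₊
    have e3 : (((List.range ⌊β ^ n⌋₊).flatMap G).length : ℝ) ≤ 2 * (⌊β ^ n⌋₊ : ℝ) := by
      exact_mod_cast e2
    have e4 := Nat.floor_le hpos.le
    linarith
  · intro w hw
    rw [List.mem_flatMap] at hw
    obtain ⟨i, _, hi⟩ := hw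
    exact hG2 i w hi
  · intro w hw y hy
    obtain ⟨w', hw', hy'⟩ := hG3 _ w hw rfl y hy
    refine ⟨w', ?_, hy'⟩
    rw [List.mem_flatMap]
    refine ⟨_, ?_, hw'⟩
    rw [List.mem_range]
    obtain ⟨b1, b2⟩ := act_bd β m h1 w (hW w hw).2
    rw [(hW w hw).1] at b2
    have c1 : (- act β w 0) / ((m : ℝ) / (β - 1)) ≤ β ^ n - 1 := by
      rw [div_le_iff₀ hl]
      linarith
    rw [Nat.floor_lt (div_nonneg b1 hl.le)]
    have c2 := Nat.lt_floor_add_one (β ^ n)
    linarith

open Classical in
/-- the first word of the list which leads to `I` -/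
private noncomputable def sel (β : ℝ) (m : ℕ) : List (List ℕ) → ℝ → List ℕ
  | [], _ => []
  | w :: F, y => if act β w y ∈ Iv β m then w else sel β m F y

private theorem sel_spec (β : ℝ) (m : ℕ) (F : List (List ℕ)) (y : ℝ) :
    (sel β m F y = [] ∨ (sel β m F y ∈ F ∧ act β (sel β m F y) y ∈ Iv β m)) ∧
    ((∃ w ∈ F, act β w y ∈ Iv β m) → sel β m F y ∈ F ∧ act β (sel β m F y) y ∈ Iv β m) := by
  induction F with
  | nil => simp [sel]
  | cons w F ih =>
    by_cases h : act β w y ∈ Iv β m
    · have e : sel β m (w :: F) y = w := by simp only [sel]; rw [if_pos h]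
      rw [e]
      exact ⟨Or.inr ⟨List.mem_cons_self, h⟩, fun _ => ⟨List.mem_cons_self, h⟩⟩
    · have e : sel β m (w :: F) y = sel β m F y := by simp only [sel]; rw [if_neg h]
      rw [e]
      refine ⟨?_, ?_⟩
      · rcases ih.1 with h1 | h1
        · exact Or.inl h1
        · exact Or.inr ⟨List.mem_cons_of_mem _ h1.1, h1.2⟩
      · rintro ⟨w', hw', hy⟩
        rcases List.mem_cons.1 hw' with rfl | hw'
        · exact absurd hy h
        · have := ih.2 ⟨w', hw', hy⟩
          exact ⟨List.mem_cons_of_mem _ this.1, this.2⟩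

private theorem act_meas (β : ℝ) (w : List ℕ) : Measurable (act β w) := by
  have : act β w = fun x => β ^ w.length * x + act β w 0 := funext (act_affine β w)
  rw [this]
  fun_prop

open Classical in
private theorem sel_meas (β : ℝ) (m : ℕ) (F : List (List ℕ)) :
    (∀ v, MeasurableSet (sel β m F ⁻¹' {v})) ∧ Measurable (fun y => act β (sel β m F y) y) := by
  induction F with
  | nil =>
    refine ⟨fun v => ?_, ?_⟩
    · by_cases h : ([] : List ℕ) = v
      · have : sel β m [] ⁻¹' {v} = univ := by
          ext y; simp [sel, h]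
        rw [this]; exact MeasurableSet.univ
      · have : sel β m [] ⁻¹' {v} = ∅ := by
          ext y; simp [sel, h]
        rw [this]; exact MeasurableSet.empty
    · have : (fun y => act β (sel β m [] y) y) = fun y => y := by
        funext y; simp [sel, act]
      rw [this]; exact measurable_id
  | cons w F ih =>
    have hm : MeasurableSet {y | act β w y ∈ Iv β m} := (act_meas β w) measurableSet_Icc
    refine ⟨fun v => ?_, ?_⟩
    · have : sel β m (w :: F) ⁻¹' {v} =
          ({y | act β w y ∈ Iv β m} ∩ {_y | w = v}) ∪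
            ({y | act β w y ∈ Iv β m}ᶜ ∩ sel β m F ⁻¹' {v}) := by
        ext y
        by_cases h : act β w y ∈ Iv β m
        · simp [sel, h]
        · simp [sel, h]
      rw [this]
      exact (hm.inter (MeasurableSet.const _)).union (hm.compl.inter (ih.1 v))
    · have : (fun y => act β (sel β m (w :: F) y) y) =
          fun y => if act β w y ∈ Iv β m then act β w y else act β (sel β m F y) y := by
        funext y
        by_cases h : act β w y ∈ Iv β m
        · simp [sel, h]
        · simp [sel, h]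
      rw [this]
      exact Measurable.ite hm (act_meas β w) ih.2

private theorem vol_list (β : ℝ) (h1 : 1 < β) (n : ℕ) (B : Set ℝ) (hB : MeasurableSet B)
    (F : List (List ℕ)) : (∀ w ∈ F, w.length = n) →
    volume {y | ∃ w ∈ F, act β w y ∈ B} ≤
      (F.length : ENNReal) * (ENNReal.ofReal ((β ^ n)⁻¹) * volume B) := by
  induction F with
  | nil => intro _; simp
  | cons w F ih =>
    intro h
    have e : {y | ∃ w' ∈ w :: F, act β w' y ∈ B} =
        {y | act β w y ∈ B} ∪ {y | ∃ w' ∈ F, act β w' y ∈ B} := by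
      ext y; simp
    rw [e]
    refine (measure_union_le _ _).trans ?_
    rw [(Pool.Agent.Q314.BE.taskScale β h1 w B hB).2, h w List.mem_cons_self, List.length_cons]
    push_cast
    rw [add_mul, one_mul, add_comm]
    gcongr
    exact ih (fun w' hw' => h w' (List.mem_cons_of_mem _ hw'))

theorem taskPsi : TaskPsi := by
  intro β m hP n W hW
  obtain ⟨F, hF1, hF2, hF3⟩ := few β m hP n W hW
  have h1 : 1 < β := hP.1
  refine ⟨sel β m F, (sel_meas β m F).1, ?_, ?_, (sel_meas β m F).2, ?_⟩
  · intro y
    rcases (sel_spec β m F y).1 with h | h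
    · exact Or.inl h
    · exact Or.inr ⟨hF2 _ h.1, h.2⟩
  · rintro y ⟨w, hw, hy⟩
    obtain ⟨w', hw', hy'⟩ := hF3 w hw y hy
    have := (sel_spec β m F y).2 ⟨w', hw', hy'⟩
    exact ⟨hF2 _ this.1, this.2⟩
  · intro B hB
    have hsub : (fun y => act β (sel β m F y) y) ⁻¹' B ⊆ {y | ∃ w ∈ F, act β w y ∈ B} ∪ B := by
      intro y hy
      rcases (sel_spec β m F y).1 with h | h
      · right
        have h2 : act β (sel β m F y) y ∈ B := hy
        rw [h] at h2
        exact h2
      · left
        exact ⟨_, h.1, hy⟩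
    refine (measure_mono hsub).trans ((measure_union_le _ _).trans ?_)
    have hv := vol_list β h1 n B hB F (fun w hw => (hW w (hF2 w hw)).1)
    have hpos : (0 : ℝ) < β ^ n := by have : 0 < β := by linarith
                                      positivity
    have h4 : (F.length : ENNReal) * ENNReal.ofReal ((β ^ n)⁻¹) ≤ 4 := by
      have e1 : (F.length : ENNReal) = ENNReal.ofReal (F.length : ℝ) := by
        rw [ENNReal.ofReal_natCast]
      rw [e1, ← ENNReal.ofReal_mul (Nat.cast_nonneg _)]
      have e2 : (4 : ENNReal) = ENNReal.ofReal 4 := by norm_num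
      rw [e2]
      apply ENNReal.ofReal_le_ofReal
      rw [← div_eq_mul_inv, div_le_iff₀ hpos]
      linarith
    calc volume {y | ∃ w ∈ F, act β w y ∈ B} + volume B
        ≤ (F.length : ENNReal) * (ENNReal.ofReal ((β ^ n)⁻¹) * volume B) + volume B := by gcongr
      _ = (F.length : ENNReal) * ENNReal.ofReal ((β ^ n)⁻¹) * volume B + volume B := by
          rw [mul_assoc]
      _ ≤ 4 * volume B + volume B := by gcongr
      _ = 5 * volume B := by
          rw [← one_mul (volume B), ← mul_assoc, mul_one, ← add_mul]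
          norm_num

end Pool.Agent.Q186.PF
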